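import Pool.Agent.Y808.MZ.Gal
import Pool.Agent.W505.MZ.Delta

/-!
# The residual representation over a general base field containing `√5`
-/

set_option autoImplicit false

noncomputable section

namespace Pool.Agent.J6H44.MD

open NumberField IsDedekindDomain MZ MZ294

section gen

variable {F Ω : Type} [Field F] [NumberField F] [Field Ω] [Algebra F Ω] [IsAlgClosure F Ω]

/-- The places of `F` above `30`. -/
def S30' (F : Type) [Field F] : Set (HeightOneSpectrum (𝓞 F)) := {v | (30 : 𝓞 F) ∈ v.asIdeal}

variable (D : Dat F Ω)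

omit [NumberField F] [IsAlgClosure F Ω] in
lemma K0_normal [CharZero F] [Normal F Ω] : Normal F D.K0 := by
  rw [IntermediateField.normal_iff_forall_map_le']
  intro g
  rw [Dat.K0, IntermediateField.adjoin_map, IntermediateField.adjoin_le_iff]
  have hz : D.z ∈ IntermediateField.adjoin F {D.z, D.y} :=
    IntermediateField.subset_adjoin _ _ (by simp)
  have hy : D.y ∈ IntermediateField.adjoin F {D.z, D.y} :=
    IntermediateField.subset_adjoin _ _ (by simp)
  obtain ⟨a, t, e, -, -, -, h1, h2⟩ := D.act g
  rintro _ ⟨x, hx, rfl⟩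
  simp only [Set.mem_insert_iff, Set.mem_singleton_iff] at hx
  rcases hx with rfl | rfl
  · change g D.z ∈ _
    rw [h1]; exact zpow_mem (pow_mem hz _) _
  · change g D.y ∈ _
    rw [h2]; exact zpow_mem (mul_mem hy (pow_mem hz _)) _

/-- the data in `K0` -/
def DK : Dat F D.K0 where
  s := D.s
  hs := D.hs
  z := ⟨D.z, IntermediateField.subset_adjoin _ _ (by simp)⟩
  hz := by
    have := D.hz
    exact IsPrimitiveRoot.of_map_of_injective (f := (D.K0).val) this Subtype.val_injective
  y := ⟨D.y, IntermediateField.subset_adjoin _ _ (by simp)⟩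
  hy := by
    apply Subtype.ext
    exact D.hy

omit [NumberField F] [IsAlgClosure F Ω] in
lemma DK_gen [CharZero F] (g : D.K0 ≃ₐ[F] D.K0) (hz : g (DK D).z = (DK D).z)
    (hy : g (DK D).y = (DK D).y) : g = 1 := by
  have h : ∀ x : Ω, ∀ hx : x ∈ D.K0, g ⟨x, hx⟩ = ⟨x, hx⟩ := by
    intro x hx
    induction hx using IntermediateField.adjoin_induction with
    | mem x hx =>
      simp only [Set.mem_insert_iff, Set.mem_singleton_iff] at hx
      rcases hx with rfl | rfl
      · exact hz
      · exact hy
    | algebraMap x => exact g.commutes x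
    | add x y hx hy h1 h2 =>
      have : (⟨x + y, add_mem hx hy⟩ : D.K0) = ⟨x, hx⟩ + ⟨y, hy⟩ := rfl
      exact (congrArg g this).trans ((map_add g _ _).trans (by rw [h1, h2]; rfl))
    | inv x hx h1 =>
      have : (⟨x⁻¹, inv_mem hx⟩ : D.K0) = (⟨x, hx⟩)⁻¹ := rfl
      exact (congrArg g this).trans ((map_inv₀ g _).trans (by rw [h1]; rfl))
    | mul x y hx hy h1 h2 =>
      have : (⟨x * y, mul_mem hx hy⟩ : D.K0) = ⟨x, hx⟩ * ⟨y, hy⟩ := rfl
      exact (congrArg g this).trans ((map_mul g _ _).trans (by rw [h1, h2]; rfl))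
  ext x
  exact congrArg Subtype.val (h x.1 x.2)

/-- a place not above `30` does not contain `30`. -/
lemma not_mem_of_outside {W : IntermediateField F Ω} [FiniteDimensional F W]
    (w : HeightOneSpectrum (𝓞 W))
    (hw : ∀ v ∈ S30' F, w.asIdeal.comap (algebraMap (𝓞 F) (𝓞 W)) ≠ v.asIdeal) :
    (30 : 𝓞 W) ∉ w.asIdeal := by
  intro h
  have : NumberField W := NumberField.of_module_finite F W
  have hne : w.asIdeal.comap (algebraMap (𝓞 F) (𝓞 W)) ≠ ⊥ := by
    have := Ideal.comap_ne_bot_of_integral_mem (R := 𝓞 F) (S := 𝓞 W) (I := w.asIdeal) (x := 30)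
      (by norm_num) h (Algebra.IsIntegral.isIntegral _)
    exact this
  let v : HeightOneSpectrum (𝓞 F) := ⟨w.asIdeal.comap (algebraMap (𝓞 F) (𝓞 W)),
    Ideal.IsPrime.comap _, hne⟩
  refine hw v ?_ rfl
  change (30 : 𝓞 F) ∈ w.asIdeal.comap (algebraMap (𝓞 F) (𝓞 W))
  rw [Ideal.mem_comap, map_ofNat]
  exact h

instance K0_fin : FiniteDimensional F D.K0 := by
  have : Algebra.IsAlgebraic F Ω := IsAlgClosure.isAlgebraic
  infer_instance

lemma K0_unram : UnramifiedOutside (S30' F) D.K0 := by
  have hN : Normal F Ω := IsAlgClosure.normal F Ω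
  have hK : Normal F D.K0 := K0_normal D
  have hG : IsGalois F D.K0 := { to_isSeparable := inferInstance, to_normal := inferInstance }
  have hNF : NumberField D.K0 := NumberField.of_module_finite F D.K0
  intro w hw
  obtain ⟨h2, h3⟩ := two_three _ (not_mem_of_outside w hw)
  have := w.isPrime
  exact unram_of_dat (DK D) (DK_gen D) w.asIdeal h2 h3

lemma K0_le_FS : D.K0 ≤ (FSmax (S30' F) : IntermediateField F Ω) :=
  le_iSup (fun K : {K : IntermediateField F Ω // FiniteDimensional F K ∧ UnramifiedOutside (S30' F) K}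
    => K.1) ⟨D.K0, inferInstance, K0_unram D⟩

/-- the data in `F_S` -/
def DS' : Dat F (FSmax (S30' F) : IntermediateField F Ω) where
  s := D.s
  hs := D.hs
  z := ⟨D.z, K0_le_FS D (IntermediateField.subset_adjoin _ _ (by simp))⟩
  hz := IsPrimitiveRoot.of_map_of_injective (f := (FSmax (S30' F) : IntermediateField F Ω).val)
    D.hz Subtype.val_injective
  y := ⟨D.y, K0_le_FS D (IntermediateField.subset_adjoin _ _ (by simp))⟩
  hy := by
    apply Subtype.ext
    exact D.hy

variable (F) in
lemma S30'_finite : (S30' F).Finite := by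
  have h0 : (Ideal.span {(30 : 𝓞 F)}) ≠ 0 := by
    rw [Ne, Ideal.zero_eq_bot, Ideal.span_singleton_eq_bot]
    norm_num
  refine (Ideal.finite_factors h0).subset ?_
  intro v hv
  show v.asIdeal ∣ _
  rw [Ideal.dvd_iff_le, Ideal.span_singleton_le_iff_mem]
  exact hv

variable (F) in
lemma two_mem_S30' (v : HeightOneSpectrum (𝓞 F)) (h : (2 : 𝓞 F) ∈ v.asIdeal) : v ∈ S30' F := by
  show (30 : 𝓞 F) ∈ v.asIdeal
  have : (30 : 𝓞 F) = 15 * 2 := by norm_num
  rw [this]
  exact Ideal.mul_mem_left _ _ h

lemma exists_w' (K : IntermediateField F Ω) :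
    ∃ w : InfinitePlace F → InfinitePlace K, ∀ v, (w v).comap (algebraMap F K) = v := by
  have hal : Algebra.IsAlgebraic F Ω := IsAlgClosure.isAlgebraic
  have : ∀ v : InfinitePlace F, ∃ w : InfinitePlace K, w.comap (algebraMap F K) = v := by
    intro v
    let φ := v.embedding
    let _ := φ.toAlgebra
    have : Algebra.IsAlgebraic F K := Algebra.IsAlgebraic.tower_bot (K := F) (L := K) (A := Ω)
    let f : K →ₐ[F] ℂ := IsAlgClosed.lift
    refine ⟨InfinitePlace.mk f.toRingHom, ?_⟩
    rw [InfinitePlace.comap_mk]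
    have : f.toRingHom.comp (algebraMap F K) = φ := f.comp_algebraMap
    rw [this]
    exact InfinitePlace.mk_embedding v
  choose w hw using this
  exact ⟨w, hw⟩

/-- `δ = 1` for a totally real field, if the involutions are in the kernel. -/
theorem delta_one (hreal : ∀ φ : F →+* ℂ, ComplexEmbedding.IsReal φ)
    (S : Set (HeightOneSpectrum (𝓞 F))) {k : Type} [Field k] (ρbar : GFS Ω S →* GL (Fin 3) k)
    (hρ : ∀ g : GFS Ω S, g * g = 1 → ρbar g = 1)
    (w : InfinitePlace F → InfinitePlace (FSmax S : IntermediateField F Ω)) :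
    delta S ρbar w = 1 := by
  classical
  have hnr : InfinitePlace.nrComplexPlaces F = 0 := by
    unfold InfinitePlace.nrComplexPlaces
    rw [Fintype.card_eq_zero_iff]
    constructor
    rintro ⟨w, hw⟩
    rw [InfinitePlace.isComplex_iff] at hw
    exact hw (hreal _)
  have hcard : Fintype.card (InfinitePlace F) = Module.finrank ℚ F := by
    have h2 := InfinitePlace.card_add_two_mul_card_eq_rank F
    have h1 := InfinitePlace.card_eq_nrRealPlaces_add_nrComplexPlaces F
    rw [hnr] at h1 h2
    omega
  have key : ∀ v : InfinitePlace F,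
      Module.finrank k (ad0Inv ρbar (MulAction.stabilizer (GFS Ω S) (w v))) = 8 := by
    intro v
    rw [← Pool.Agent.W505.MZ.finrank_trace k]
    have : ad0Inv ρbar (MulAction.stabilizer (GFS Ω S) (w v)) =
        LinearMap.ker (Matrix.traceLinearMap (Fin 3) k k) := by
      ext X
      constructor
      · intro hX
        exact hX.1
      · intro hX
        refine ⟨hX, ?_⟩
        intro g hg
        have hg2 : g * g = 1 := by
          rw [← InfinitePlace.mk_embedding (w v), InfinitePlace.mem_stabilizer_mk_iff] at hg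
          rcases hg with rfl | hg
          · simp
          · apply AlgEquiv.ext
            intro x
            apply (InfinitePlace.embedding (w v)).injective
            show InfinitePlace.embedding (w v) (g (g x)) = InfinitePlace.embedding (w v) x
            rw [hg.eq, hg.eq, star_star]
        rw [hρ g hg2]
        simp
    rw [this]
  unfold delta
  rw [Finset.sum_congr rfl (fun v _ => by rw [key v]), Finset.sum_const, Finset.card_univ, hcard,
    hnr]
  simp
  ring

end gen

section rho

variable {F E : Type} [Field F] [CharZero F] [Field E] [Algebra F E] (D : Dat F E)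

/-- absolute irreducibility of the residual representation -/
theorem rho_irred [TopologicalSpace (E ≃ₐ[F] E)] (hsurj : Function.Surjective D.Lam)
    (w : GaloisField 2 2) (hw : w ^ 2 + w + 1 = 0) (hw3 : w ^ 3 = 1) : AbsIrred (D.rho w hw3) := by
  intro V hV
  obtain ⟨gT, hT1, hT2⟩ := D.pa_pt_surj hsurj 1 1 (by simp)
  obtain ⟨gS, hS1, hS2⟩ := D.pa_pt_surj hsurj 4 0 (by simp)
  set f := algebraMap (GaloisField 2 2) (AlgebraicClosure (GaloisField 2 2)) with hf
  refine irred_TS (f w) ?_ ?_ V ?_ ?_
  · rw [← map_pow, ← map_add, ← map_one f, ← map_add, hw, map_zero]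
  · have h2 : (2 : AlgebraicClosure (GaloisField 2 2)) = 0 := by
      have : (2 : GaloisField 2 2) = 0 := CharTwo.two_eq_zero
      rw [← map_ofNat f 2, this, map_zero]
    have : (3 : AlgebraicClosure (GaloisField 2 2)) = 1 := by
      linear_combination h2
    rw [this]; exact one_ne_zero
  · intro x hx
    have := hV gT x hx
    rw [D.rho_coe, hT1, hT2, mat_T] at this
    convert this using 2
    ext i j; fin_cases i <;> fin_cases j <;> simp
  · intro x hx
    have := hV gS x hx
    rw [D.rho_coe, hS1, hS2] at this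
    convert this using 1
    ext i
    simp only [Matrix.mulVec, dotProduct, Matrix.map_apply, mat_S]
    rw [Finset.sum_eq_single i]
    · simp
    · intro j _ hj
      rw [if_neg (fun h => hj h.symm), map_zero, zero_mul]
    · simp

/-- the elements fixing `L` act by scalars -/
theorem rho_scalar {k : Type} [Field k] (w : k) (hw3 : w ^ 3 = 1) (g : E ≃ₐ[F] E)
    (h1 : g D.eN = D.eN) (h2 : g D.eM = D.eM) :
    ∃ a : k, (D.rho w hw3 g : Matrix (Fin 3) (Fin 3) k) = a • (1 : Matrix (Fin 3) (Fin 3) k) := by
  have h3 := D.fix_eN_iff g h1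
  have h4 := D.fix_eM_iff g h2
  rw [D.rho_coe, h3]
  exact wt_scalar w _ h4

/-- powers of a 2-power degree extension: no roots of the cubics -/
theorem noroot_ext {F F' : Type} [Field F] [CharZero F] [Field F'] [Algebra F F']
    [FiniteDimensional F F']
    (N : ℕ) (hN : Module.finrank F F' = 2 ^ N) (b c : F) (h : ∀ x : F, x ^ 3 + b * x + c ≠ 0)
    (x : F') : x ^ 3 + algebraMap F F' b * x + algebraMap F F' c ≠ 0 := by
  intro hx
  let p : Polynomial F := Polynomial.X ^ 3 + Polynomial.C b * Polynomial.X + Polynomial.C c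
  have hp3 : p.natDegree = 3 := by
    show (Polynomial.X ^ 3 + Polynomial.C b * Polynomial.X + Polynomial.C c).natDegree = 3
    compute_degree!
  have hpm : p.Monic := by
    show (Polynomial.X ^ 3 + Polynomial.C b * Polynomial.X + Polynomial.C c).Monic
    monicity!
  have hirr : Irreducible p := by
    refine Polynomial.irreducible_of_degree_le_three_of_not_isRoot ?_ ?_
    · rw [Finset.mem_Icc, hp3]; omega
    · intro y hy
      apply h y
      have : p.eval y = 0 := hy
      simpa [p] using this
  have hroot : Polynomial.aeval x p = 0 := by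
    simp only [p, map_add, map_mul, map_pow, Polynomial.aeval_X, Polynomial.aeval_C]
    exact hx
  have hmin : p = minpoly F x := minpoly.eq_of_irreducible_of_monic hirr hroot hpm
  have hdvd := minpoly.degree_dvd (K := F) (x := x) (Algebra.IsIntegral.isIntegral x)
  rw [← hmin, hp3, hN] at hdvd
  have h32 : (3 : ℕ) ∣ 2 := Nat.Prime.dvd_of_dvd_pow (by norm_num) hdvd
  omega

end rho

end Pool.Agent.J6H44.MD
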