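import Pool.Agent.J6H44.MD.Ext
import Pool.Agent.W21.MZ.ExA

/-!
# A lower bound for the dimension of a universal deformation ring
-/

set_option autoImplicit false

noncomputable section

namespace Pool.Agent.J6H44.MD

open MZ IsLocalRing MvPowerSeries

section ring

variable {k : Type} [Field k] {J : Type}

open Classical in
/-- the part of `f` not involving the variables `x_i` with `s i` -/
def kf (s : J → Prop) (f : MvPowerSeries J k) : MvPowerSeries J k :=
  fun e => if ∀ i, s i → e i = 0 then coeff e f else 0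

open Classical in
lemma coeff_kf (s : J → Prop) (f : MvPowerSeries J k) (e : J →₀ ℕ) :
    coeff e (kf s f) = if ∀ i, s i → e i = 0 then coeff e f else 0 := rfl

/-- `kap s` is the endomorphism of the power series ring which sends the variables `x_i` with `s i`
to zero. -/
def kap (s : J → Prop) : MvPowerSeries J k →+* MvPowerSeries J k where
  toFun := kf s
  map_zero' := by
    ext e
    rw [coeff_kf]
    simp
  map_add' := by
    intro f g
    ext e
    rw [map_add, coeff_kf, coeff_kf, coeff_kf]
    split_ifs <;> simp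
  map_one' := by
    classical
    ext e
    rw [coeff_kf]
    by_cases he : e = 0
    · subst he
      simp
    · rw [coeff_one, if_neg he]
      simp
  map_mul' := by
    classical
    intro f g
    ext e
    rw [coeff_kf, coeff_mul, coeff_mul]
    by_cases h : ∀ i, s i → e i = 0
    · rw [if_pos h]
      refine Finset.sum_congr rfl fun x hx => ?_
      rw [Finset.HasAntidiagonal.mem_antidiagonal] at hx
      have h1 : ∀ i, s i → x.1 i = 0 := by
        intro i hi
        have := h i hi
        rw [← hx, Finsupp.add_apply] at this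
        omega
      have h2 : ∀ i, s i → x.2 i = 0 := by
        intro i hi
        have := h i hi
        rw [← hx, Finsupp.add_apply] at this
        omega
      rw [coeff_kf, coeff_kf, if_pos h1, if_pos h2]
    · rw [if_neg h]
      symm
      refine Finset.sum_eq_zero fun x hx => ?_
      rw [Finset.HasAntidiagonal.mem_antidiagonal] at hx
      rw [coeff_kf, coeff_kf]
      by_cases h1 : ∀ i, s i → x.1 i = 0
      · by_cases h2 : ∀ i, s i → x.2 i = 0
        · exfalso
          apply h
          intro i hi
          rw [← hx, Finsupp.add_apply, h1 i hi, h2 i hi]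
        · rw [if_neg h2, mul_zero]
      · rw [if_neg h1, zero_mul]

open Classical in
lemma coeff_kap (s : J → Prop) (f : MvPowerSeries J k) (e : J →₀ ℕ) :
    coeff e (kap s f) = if ∀ i, s i → e i = 0 then coeff e f else 0 := rfl

lemma kap_X_of (s : J → Prop) (i : J) (h : s i) : kap s (X i : MvPowerSeries J k) = 0 := by
  classical
  ext e
  rw [coeff_kap, coeff_X]
  by_cases he : e = Finsupp.single i 1
  · rw [if_neg]
    · simp
    · intro h1
      have := h1 i h
      rw [he] at this
      simp at this
  · simp [he]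

lemma kap_X_not (s : J → Prop) (i : J) (h : ¬ s i) : kap s (X i : MvPowerSeries J k) = X i := by
  classical
  ext e
  rw [coeff_kap, coeff_X]
  by_cases he : e = Finsupp.single i 1
  · rw [if_pos]
    intro i' hi'
    rw [he, Finsupp.single_apply, if_neg]
    rintro rfl
    exact h hi'
  · simp [he]

lemma kap_C (s : J → Prop) (a : k) : kap s (C a : MvPowerSeries J k) = C a := by
  classical
  ext e
  rw [coeff_kap, coeff_C]
  by_cases he : e = 0
  · subst he; simp
  · simp [he]

lemma kap_kap (s s' : J → Prop) (h : ∀ i, s i → s' i) (f : MvPowerSeries J k) :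
    kap s' (kap s f) = kap s' f := by
  classical
  ext e
  rw [coeff_kap, coeff_kap, coeff_kap]
  by_cases h1 : ∀ i, s' i → e i = 0
  · rw [if_pos h1, if_pos (fun i hi => h1 i (h i hi)), if_pos h1]
  · rw [if_neg h1, if_neg h1]

variable (k J) in
theorem adic [Finite J] : IsAdicComplete (maximalIdeal (MvPowerSeries J k)) (MvPowerSeries J k) := by
  have : IsAdicComplete (maximalIdeal k) k := by
    rw [IsLocalRing.maximalIdeal_eq_bot]; infer_instance
  exact (Pool.Agent.W21.MZ.exA k J).1

theorem mem_max [Finite J] (f : MvPowerSeries J k) :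
    f ∈ maximalIdeal (MvPowerSeries J k) ↔ constantCoeff f = 0 := by
  have : IsAdicComplete (maximalIdeal k) k := by
    rw [IsLocalRing.maximalIdeal_eq_bot]; infer_instance
  rw [(Pool.Agent.W21.MZ.exA k J).2.1 f, IsLocalRing.maximalIdeal_eq_bot, Ideal.mem_bot]

variable (k J) in
theorem finite_quot [Finite J] [Finite k] (m : ℕ) :
    Finite (MvPowerSeries J k ⧸ (maximalIdeal (MvPowerSeries J k)) ^ m) := by
  have h1 : Finite (MvPowerSeries J k ⧸ (maximalIdeal (MvPowerSeries J k))) := by
    have e : maximalIdeal (MvPowerSeries J k) = RingHom.ker (constantCoeff : MvPowerSeries J k →+* k) := by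
      ext f
      rw [mem_max, RingHom.mem_ker]
    rw [e]
    exact Finite.of_injective _ (RingHom.kerLift_injective (constantCoeff : MvPowerSeries J k →+* k))
  exact Ideal.finite_quotient_pow (IsNoetherian.noetherian _) m

variable (p : ℕ) [Fact p.Prime] (k J) [CharP k p]

/-- the power series ring as a coefficient ring -/
def BB [Finite J] : CNL p k where
  A := MvPowerSeries J k
  complete := adic k J
  alg := ((C (σ := J) (R := k)).comp WittVector.constantCoeff).toAlgebra
  res := constantCoeff
  res_surj := fun a => ⟨C a, constantCoeff_C a⟩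
  res_coeff := fun _ => constantCoeff_C _

end ring

/-- **Lower bound for the dimension.** -/
theorem dim_ge (p : ℕ) [Fact p.Prime] {k : Type} [Field k] [CharP k p]
    {G : Type} [Group G] [TopologicalSpace G] [IsTopologicalGroup G] {n : ℕ}
    (ρbar : G →* GL (Fin n) k) {J : Type} [Finite J] (r : ℕ) (s : ℕ → J → Prop)
    (hs : ∀ j i, s j i → s (j + 1) i)
    (ρ : G →* GL (Fin n) (MvPowerSeries J k))
    (hρ : ∀ g, ρ g * (CMB C (ρbar g))⁻¹ ∈ Cg (maximalIdeal (MvPowerSeries J k)) n 1)
    (hcont : ∀ m : ℕ, IsOpen (((Cg (maximalIdeal (MvPowerSeries J k)) n m).comap ρ : Subgroup G) : Set G))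
    (hb : ∀ j < r, ∃ b ∈ Algebra.adjoin k
      (Set.range fun g => (ρ g : Matrix (Fin n) (Fin n) (MvPowerSeries J k)).trace),
      kap (s j) b ≠ 0 ∧ kap (s (j + 1)) b = 0)
    (R : CNL p k) (ρu : G →* GL (Fin n) R.A) (hR : IsUniversal ρbar R ρu) :
    (r : WithBot ℕ∞) ≤ ringKrullDim (R.A ⧸ Ideal.span {(p : R.A)}) := by
  classical
  have hlift : IsLift ρbar (BB k J p) ρ := by
    refine ⟨fun g => ?_, fun m => ?_⟩
    · have h1 := (mem_Cg _ n 1 _).mp (hρ g)
      have h2 : Matrix.GeneralLinearGroup.map (n := Fin n) (constantCoeff : MvPowerSeries J k →+* k)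
          (ρ g * (CMB C (ρbar g))⁻¹) = 1 := by
        ext a b
        have h3 := h1 a b
        rw [pow_one, mem_max, Matrix.sub_apply, map_sub, sub_eq_zero] at h3
        rw [Matrix.GeneralLinearGroup.map_apply, h3]
        by_cases hab : a = b
        · subst hab; simp
        · simp [hab]
      rw [map_mul, map_inv, mul_inv_eq_one] at h2
      show Matrix.GeneralLinearGroup.map (n := Fin n) (constantCoeff : MvPowerSeries J k →+* k) (ρ g) = _
      rw [h2]
      ext a b
      show constantCoeff (C ((ρbar g : Matrix (Fin n) (Fin n) k) a b) : MvPowerSeries J k) =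
        (ρbar g : Matrix (Fin n) (Fin n) k) a b
      rw [constantCoeff_C]
    · convert hcont m using 1
      ext g
      exact (mem_Cg _ n m (ρ g)).symm
  obtain ⟨f, ⟨-, M, -, hM⟩, -⟩ := hR.2 (BB k J p) ρ hlift
  let ρ' : G →* GL (Fin n) (BB k J p).A := ρ
  have htr : ∀ g, ((ρ g : Matrix (Fin n) (Fin n) (MvPowerSeries J k))).trace =
      f ((ρu g : Matrix (Fin n) (Fin n) R.A).trace) := by
    intro g
    have h5 : ρ' g = _ := hM g
    have h6 : (ρ' g : Matrix (Fin n) (Fin n) (BB k J p).A) =
        (M : Matrix (Fin n) (Fin n) (BB k J p).A) *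
        ((ρu g : Matrix (Fin n) (Fin n) R.A).map f) *
        ((M⁻¹ : GL (Fin n) (BB k J p).A) : Matrix (Fin n) (Fin n) (BB k J p).A) := by
      rw [h5]
      rfl
    have h7 : ((ρ' g : Matrix (Fin n) (Fin n) (BB k J p).A)).trace =
        ((ρu g : Matrix (Fin n) (Fin n) R.A).map f).trace := by
      rw [h6, Matrix.trace_mul_comm, ← mul_assoc]
      have h8 : ((M⁻¹ : GL (Fin n) (BB k J p).A) : Matrix (Fin n) (Fin n) (BB k J p).A) *
          (M : Matrix (Fin n) (Fin n) (BB k J p).A) = 1 := by
        rw [← Units.val_mul, inv_mul_cancel, Units.val_one]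
      rw [h8, one_mul]
    have h9 : ((ρu g : Matrix (Fin n) (Fin n) R.A).map f).trace =
        f ((ρu g : Matrix (Fin n) (Fin n) R.A).trace) := by
      rw [Matrix.trace, Matrix.trace, map_sum]
      rfl
    exact h7.trans h9
  let F : R.A →+* MvPowerSeries J k := (f : R.A →+* (BB k J p).A)
  have hFw : ∀ w : WittVector p k, F (algebraMap (WittVector p k) R.A w) = C (w.coeff 0) := by
    intro w
    exact f.commutes w
  -- the algebra generated by the traces lies in the image
  have himg : ∀ b ∈ Algebra.adjoin k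
      (Set.range fun g => (ρ g : Matrix (Fin n) (Fin n) (MvPowerSeries J k)).trace),
      ∃ y : R.A, F y = b := by
    intro b hb
    induction hb using Algebra.adjoin_induction with
    | mem x hx =>
      obtain ⟨g, rfl⟩ := hx
      exact ⟨_, (htr g).symm⟩
    | algebraMap a =>
      refine ⟨algebraMap (WittVector p k) R.A (WittVector.teichmuller p a), ?_⟩
      rw [hFw, WittVector.teichmuller_coeff_zero]
      rfl
    | add x y _ _ hx hy =>
      obtain ⟨x', rfl⟩ := hx
      obtain ⟨y', rfl⟩ := hy
      exact ⟨x' + y', map_add _ _ _⟩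
    | mul x y _ _ hx hy =>
      obtain ⟨x', rfl⟩ := hx
      obtain ⟨y', rfl⟩ := hy
      exact ⟨x' * y', map_mul _ _ _⟩
  have hFp : F (p : R.A) = 0 := by
    rw [map_natCast]
    have h1 : ((p : ℕ) : MvPowerSeries J k) = C ((p : ℕ) : k) :=
      (map_natCast (C (σ := J) (R := k)) p).symm
    rw [h1, CharP.cast_eq_zero, map_zero]
  have hI : ∀ a ∈ Ideal.span {(p : R.A)}, F a = 0 := by
    intro a ha
    obtain ⟨c, rfl⟩ := Ideal.mem_span_singleton.1 ha
    rw [map_mul, hFp, zero_mul]
  let F' : R.A ⧸ Ideal.span {(p : R.A)} →+* MvPowerSeries J k := Ideal.Quotient.lift _ F hI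
  have hF' : ∀ a, F' (Ideal.Quotient.mk _ a) = F a := fun a => rfl
  have hdom : IsDomain (MvPowerSeries J k) := NoZeroDivisors.to_isDomain _
  let Q : Fin (r + 1) → PrimeSpectrum (R.A ⧸ Ideal.span {(p : R.A)}) := fun j =>
    ⟨RingHom.ker ((kap (s j)).comp F'), RingHom.ker_isPrime _⟩
  have hQ : StrictMono Q := by
    rw [Fin.strictMono_iff_lt_succ]
    intro j
    obtain ⟨b, hb1, hb2, hb3⟩ := hb j j.2
    obtain ⟨y, hy⟩ := himg b hb1
    rw [← PrimeSpectrum.asIdeal_lt_asIdeal]
    refine lt_of_le_of_ne ?_ ?_
    · intro x hx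
      have hx' : kap (s j) (F' x) = 0 := hx
      show kap (s (j + 1)) (F' x) = 0
      rw [← kap_kap (s j) (s (j + 1)) (hs j), hx', map_zero]
    · intro h
      have h1 : Ideal.Quotient.mk _ y ∈ (Q j.succ).asIdeal := by
        show kap (s (j + 1)) (F' (Ideal.Quotient.mk _ y)) = 0
        rw [hF', hy, hb3]
      rw [← h] at h1
      have h2 : kap (s j) (F' (Ideal.Quotient.mk _ y)) = 0 := h1
      rw [hF', hy] at h2
      exact hb2 h2
  exact Order.LTSeries.length_le_krullDim (LTSeries.mk r Q hQ)

end Pool.Agent.J6H44.MD
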