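import Pool.Agent.J6H44.MD.Lim

/-!
# Extension of a representation of a pro-2 group to the big group, general coefficient ring
-/

set_option autoImplicit false

noncomputable section

namespace Pool.Agent.J6H44.MD

open MZ

section

variable {k B : Type} [Field k] [CommRing B] (C : k →+* B) {n : ℕ}

/-- constant matrices -/
def CMB : GL (Fin n) k →* GL (Fin n) B := Matrix.GeneralLinearGroup.map C

lemma CMB_coe (M : GL (Fin n) k) :
    ((CMB C M : GL (Fin n) B) : Matrix (Fin n) (Fin n) B) =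
      (M : Matrix (Fin n) (Fin n) k).map C := rfl

lemma CMB_scalar (M : GL (Fin n) k) (a : k)
    (h : (M : Matrix (Fin n) (Fin n) k) = a • (1 : Matrix (Fin n) (Fin n) k)) :
    ((CMB C M : GL (Fin n) B) : Matrix (Fin n) (Fin n) B) = C a • (1 : Matrix (Fin n) (Fin n) B) := by
  rw [CMB_coe, h]
  ext i j
  by_cases hij : i = j
  · subst hij; simp
  · simp [Matrix.one_apply_ne hij]

/-- conjugation by scalar-equivalent matrices agree -/
lemma conj_scalar (M N : GL (Fin n) k) (a : k)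
    (h : ((M * N⁻¹ : GL (Fin n) k) : Matrix (Fin n) (Fin n) k) = a • (1 : Matrix (Fin n) (Fin n) k))
    (Y : GL (Fin n) B) : CMB C M * Y * (CMB C M)⁻¹ = CMB C N * Y * (CMB C N)⁻¹ := by
  have h1 := CMB_scalar C (M * N⁻¹) a h
  have hc : CMB C (M * N⁻¹) * (CMB C N * Y * (CMB C N)⁻¹) =
      (CMB C N * Y * (CMB C N)⁻¹) * CMB C (M * N⁻¹) := by
    refine Units.ext ?_
    rw [Units.val_mul (CMB C (M * N⁻¹)), Units.val_mul (CMB C N * Y * (CMB C N)⁻¹), h1,
      Matrix.smul_mul, Matrix.mul_smul, Matrix.one_mul, Matrix.mul_one]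
  have h2 : CMB C M = CMB C (M * N⁻¹) * CMB C N := by rw [← map_mul]; congr 1; group
  calc CMB C M * Y * (CMB C M)⁻¹
      = CMB C (M * N⁻¹) * (CMB C N * Y * (CMB C N)⁻¹) * (CMB C (M * N⁻¹))⁻¹ := by
        rw [h2]; group
    _ = CMB C N * Y * (CMB C N)⁻¹ := by rw [hc]; group

end

/-- The extension of `ψ` to the big group. -/
theorem extend_rep {P G 𝒢 : Type} [Group P] [TopologicalSpace P] [IsTopologicalGroup P]
    [Group G] [TopologicalSpace G] [IsTopologicalGroup G]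
    [Group 𝒢] [TopologicalSpace 𝒢] [IsTopologicalGroup 𝒢]
    (j : P →* G) (hj : Function.Injective j) (hjo : IsOpenMap j) (hjc : Continuous j)
    (hjn : j.range.Normal)
    (res : 𝒢 →* G) (hres : Continuous res) (hsurj : Function.Surjective res)
    (A : Subgroup G) (hA : A ⊓ j.range = ⊥) (hA' : ∀ g : G, ∃ a ∈ A, ∃ q ∈ j.range, g = q * a)
    {ι : Type} (c : ι → P) (σ : P) (hgen : TopGen c σ) (π : G → ι → ι)
    (hπ : ∀ b ∈ A, ∀ i, b * j (c i) * b⁻¹ = j (c (π b i))) (hσ : ∀ b ∈ A, b * j σ * b⁻¹ = j σ)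
    {k : Type} [Field k] {n : ℕ} (ρbar : 𝒢 →* GL (Fin n) k) (hρo : IsOpen (ρbar.ker : Set 𝒢))
    (hρs : ∀ g, res g ∈ j.range → ∃ a : k,
      (ρbar g : Matrix (Fin n) (Fin n) k) = a • (1 : Matrix (Fin n) (Fin n) k))
    {B : Type} [CommRing B] (I : Ideal B) [IsHausdorff I B] (C : k →+* B)
    (t : ι → GL (Fin n) B)
    (ht : ∀ g : 𝒢, res g ∈ A → ∀ i, t (π (res g) i) = CMB C (ρbar g) * t i * (CMB C (ρbar g))⁻¹)
    (u : GL (Fin n) B) (hu : ∀ g : 𝒢, CMB C (ρbar g) * u * (CMB C (ρbar g))⁻¹ = u)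
    (ψ : P →* GL (Fin n) B)
    (hψ1 : ∀ g, ψ g ∈ Cg I n 1)
    (hψo : ∀ m : ℕ, IsOpen (((Cg I n m).comap ψ : Subgroup P) : Set P))
    (hψc : ∀ i, ψ (c i) = t i) (hψσ : ψ σ = u) :
    ∃ ρ : 𝒢 →* GL (Fin n) B,
      (∀ g, ρ g * (CMB C (ρbar g))⁻¹ ∈ Cg I n 1) ∧
      (∀ m : ℕ, IsOpen (((Cg I n m).comap ρ : Subgroup 𝒢) : Set 𝒢)) ∧
      (∀ g : 𝒢, ∀ q : P, ∀ a ∈ A, res g = j q * a → ρ g = ψ q * CMB C (ρbar g)) := by
  classical
  -- equivariance
  have hconjmem : ∀ (b : G) (q : P), b * j q * b⁻¹ ∈ j.range := fun b q =>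
    hjn.conj_mem _ ⟨q, rfl⟩ b
  have hequiv : ∀ (g : 𝒢), res g ∈ A → ∀ q q' : P, j q' = res g * j q * (res g)⁻¹ →
      ψ q' = CMB C (ρbar g) * ψ q * (CMB C (ρbar g))⁻¹ := by
    intro g hg
    -- the conjugation automorphism of P
    let b := res g
    let cb : P → P := fun q => (hconjmem b q).choose
    have hcb : ∀ q, j (cb q) = b * j q * b⁻¹ := fun q => (hconjmem b q).choose_spec
    let cbH : P →* P := MonoidHom.mk' cb (fun x y => by
      apply hj
      rw [map_mul, hcb, hcb, hcb, map_mul]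
      group)
    have hcbc : Continuous cbH := by
      have hemb : Topology.IsOpenEmbedding j :=
        Topology.IsOpenEmbedding.of_continuous_injective_isOpenMap hjc hj hjo
      rw [hemb.isInducing.continuous_iff]
      have : (j ∘ cbH) = fun q => b * j q * b⁻¹ := by
        funext q
        exact hcb q
      rw [this]
      fun_prop
    have h1 : ψ.comp cbH = (MulAut.conj (CMB C (ρbar g))).toMonoidHom.comp ψ := by
      refine hom_ext_gen I n c σ hgen _ _ ?_ ?_ ?_ ?_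
      · intro m
        exact (hψo m).preimage hcbc
      · intro m
        convert hψo m using 1
        ext q
        have hn : (Cg I n m).Normal := MonoidHom.normal_ker _
        show (CMB C (ρbar g)) * ψ q * (CMB C (ρbar g))⁻¹ ∈ Cg I n m ↔ ψ q ∈ Cg I n m
        constructor
        · intro h
          have := hn.conj_mem _ h (CMB C (ρbar g))⁻¹
          simpa [mul_assoc] using this
        · intro h
          exact hn.conj_mem _ h (CMB C (ρbar g))
      · intro i
        have : cb (c i) = c (π b i) := by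
          apply hj
          rw [hcb, hπ b hg i]
        show ψ (cb (c i)) = CMB C (ρbar g) * ψ (c i) * (CMB C (ρbar g))⁻¹
        rw [this, hψc, hψc, ht g hg i]
      · have : cb σ = σ := by
          apply hj
          rw [hcb, hσ b hg]
        show ψ (cb σ) = CMB C (ρbar g) * ψ σ * (CMB C (ρbar g))⁻¹
        rw [this, hψσ, hu]
    intro q q' hq
    have : q' = cb q := hj (by rw [hq, hcb])
    rw [this]
    exact DFunLike.congr_fun h1 q
  -- decomposition
  have hdec : ∀ g : 𝒢, ∃ q : P, ∃ a ∈ A, res g = j q * a := by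
    intro g
    obtain ⟨a, ha, x, ⟨q, rfl⟩, h⟩ := hA' (res g)
    exact ⟨q, a, ha, h⟩
  choose Q α hα hQ using hdec
  have huniq : ∀ (q q' : P) (a a' : G), a ∈ A → a' ∈ A → j q * a = j q' * a' → q = q' ∧ a = a' := by
    intro q q' a a' ha ha' h
    have h1 : a * a'⁻¹ ∈ A ⊓ j.range := by
      refine ⟨A.mul_mem ha (A.inv_mem ha'), q⁻¹ * q', ?_⟩
      rw [map_mul, map_inv, inv_mul_eq_iff_eq_mul, ← mul_assoc, h, mul_inv_cancel_right]
    rw [hA, Subgroup.mem_bot, mul_inv_eq_one] at h1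
    subst h1
    exact ⟨hj (mul_right_cancel h), rfl⟩
  have hmul : ∀ g g' : 𝒢, ψ (Q (g * g')) * CMB C (ρbar (g * g')) =
      (ψ (Q g) * CMB C (ρbar g)) * (ψ (Q g') * CMB C (ρbar g')) := by
    intro g g'
    -- choose a lift of α g
    obtain ⟨h, hh⟩ := hsurj (α g)
    obtain ⟨q₁, hq₁⟩ := hconjmem (α g) (Q g')
    have e1 : j (Q (g * g')) * α (g * g') = j (Q g * q₁) * (α g * α g') := by
      rw [← hQ, map_mul, hQ, hQ, map_mul, hq₁]
      group
    obtain ⟨e2, -⟩ := huniq _ _ _ _ (hα _) (A.mul_mem (hα g) (hα g')) e1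
    have e3 : ψ q₁ = CMB C (ρbar h) * ψ (Q g') * (CMB C (ρbar h))⁻¹ :=
      hequiv h (by rw [hh]; exact hα g) (Q g') q₁ (by rw [hq₁, hh])
    have hmem : res (g * h⁻¹) ∈ j.range := ⟨Q g, by rw [map_mul, map_inv, hQ, hh]; group⟩
    obtain ⟨a, ha⟩ := hρs _ hmem
    have e4 : CMB C (ρbar g) * ψ (Q g') * (CMB C (ρbar g))⁻¹ =
        CMB C (ρbar h) * ψ (Q g') * (CMB C (ρbar h))⁻¹ := by
      refine conj_scalar C (ρbar g) (ρbar h) a ?_ _
      rw [← map_inv, ← map_mul]
      exact ha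
    rw [e2, map_mul, e3, ← e4, map_mul, map_mul]
    group
  let ρ : 𝒢 →* GL (Fin n) B :=
    MonoidHom.mk' (fun g => ψ (Q g) * CMB C (ρbar g)) hmul
  refine ⟨ρ, ?_, ?_, ?_⟩
  · intro g
    show ψ (Q g) * CMB C (ρbar g) * (CMB C (ρbar g))⁻¹ ∈ Cg I n 1
    rw [mul_inv_cancel_right]
    exact hψ1 _
  · intro m
    let V : Subgroup 𝒢 := (((Cg I n m).comap ψ).map j).comap res ⊓ ρbar.ker
    have hV : IsOpen (V : Set 𝒢) := by
      rw [Subgroup.coe_inf]
      refine IsOpen.inter ?_ hρo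
      have : IsOpen ((((Cg I n m).comap ψ).map j : Subgroup G) : Set G) := by
        rw [Subgroup.coe_map]
        exact hjo _ (hψo m)
      exact this.preimage hres
    refine Subgroup.isOpen_mono (H₁ := V) ?_ hV
    rintro g ⟨⟨q, hq, hq'⟩, hg2⟩
    have e1 : j (Q g) * α g = j q * 1 := by rw [← hQ, mul_one, hq']
    obtain ⟨e2, -⟩ := huniq _ _ _ _ (hα g) A.one_mem e1
    show ρ g ∈ Cg I n m
    have : ρ g = ψ q := by
      show ψ (Q g) * CMB C (ρbar g) = _
      rw [e2, MonoidHom.mem_ker.mp hg2, map_one, mul_one]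
    rw [this]
    exact hq
  · intro g q a ha h
    have e1 : j (Q g) * α g = j q * a := by rw [← hQ, h]
    obtain ⟨e2, -⟩ := huniq _ _ _ _ (hα g) ha e1
    show ψ (Q g) * CMB C (ρbar g) = _
    rw [e2]

end Pool.Agent.J6H44.MD
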