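import Pool.Agent.J6H44.MD.Dim

/-!
# The family of deformations
-/

set_option autoImplicit false

noncomputable section

namespace Pool.Agent.J6H44.MD

open MZ IsLocalRing MvPowerSeries Matrix

/-- the variables: four for every element of `X`, and one more -/
abbrev JJ (X : Type) : Type := Option (X × Fin 4)

section mats

variable {k : Type} [Field k] {X : Type}

/-- the variable number `a` attached to `x` -/
abbrev xv (k : Type) [Field k] {X : Type} (x : X) (a : Fin 4) : MvPowerSeries (JJ X) k :=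
  MvPowerSeries.X (some (x, a))

/-- the generic nilpotent matrix of rank one attached to `x`: `(1,s,t)^T (-sp-tq, p, q)` where
`t, s, q, p` are the four variables. -/
def NN (k : Type) [Field k] {X : Type} (x : X) : Matrix (Fin 3) (Fin 3) (MvPowerSeries (JJ X) k) :=
  Matrix.vecMulVec ![1, xv k x 1, xv k x 0]
    ![-(xv k x 1 * xv k x 3) - xv k x 0 * xv k x 2, xv k x 3, xv k x 2]

lemma NN_sq (x : X) : NN k x * NN k x = 0 := by
  unfold NN
  rw [Matrix.vecMulVec_mul_vecMulVec]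
  have : (![-(xv k x 1 * xv k x 3) - xv k x 0 * xv k x 2, xv k x 3, xv k x 2] ⬝ᵥ
    ![1, xv k x 1, xv k x 0]) = 0 := by
    simp [dotProduct, Fin.sum_univ_three]
    ring
  rw [this]
  simp

lemma two_eq_zero_mv [CharP k 2] : (2 : MvPowerSeries (JJ X) k) = 0 := by
  have h : ((2 : ℕ) : k) = 0 := CharP.cast_eq_zero k 2
  have h1 : ((2 : ℕ) : MvPowerSeries (JJ X) k) = C ((2 : ℕ) : k) := (map_natCast _ 2).symm
  rw [h, map_zero] at h1
  exact_mod_cast h1

lemma one_add_NN_sq [CharP k 2] (x : X) : (1 + NN k x) * (1 + NN k x) = 1 := by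
  have h2 : NN k x + NN k x = 0 := by
    rw [← two_smul (MvPowerSeries (JJ X) k), two_eq_zero_mv, zero_smul]
  rw [mul_add, add_mul, add_mul, mul_one, mul_one, one_mul, NN_sq, add_zero, add_assoc, h2, add_zero]

/-- the generic involution -/
def XN (k : Type) [Field k] [CharP k 2] {X : Type} (x : X) : GL (Fin 3) (MvPowerSeries (JJ X) k) where
  val := 1 + NN k x
  inv := 1 + NN k x
  val_inv := one_add_NN_sq x
  inv_val := one_add_NN_sq x

lemma XN_sq [CharP k 2] (x : X) : XN k x * XN k x = 1 := Units.ext (one_add_NN_sq x)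

lemma NN_const (x : X) (a b : Fin 3) : constantCoeff (NN k x a b) = 0 := by
  unfold NN
  rw [Matrix.vecMulVec_apply]
  fin_cases a <;> fin_cases b <;> simp

lemma XN_mem [CharP k 2] [Finite X] (x : X) :
    XN k x ∈ Cg (maximalIdeal (MvPowerSeries (JJ X) k)) 3 1 := by
  rw [mem_Cg]
  intro a b
  rw [pow_one, mem_max]
  show constantCoeff (((1 + NN k x) - 1) a b) = 0
  rw [add_sub_cancel_left]
  exact NN_const x a b

lemma NN_01 (x : X) : NN k x 0 1 = xv k x 3 := by simp [NN, Matrix.vecMulVec_apply]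
lemma NN_02 (x : X) : NN k x 0 2 = xv k x 2 := by simp [NN, Matrix.vecMulVec_apply]
lemma NN_11 (x : X) : NN k x 1 1 = xv k x 1 * xv k x 3 := by simp [NN, Matrix.vecMulVec_apply]
lemma NN_21 (x : X) : NN k x 2 1 = xv k x 0 * xv k x 3 := by simp [NN, Matrix.vecMulVec_apply]

end mats

/-- the number of a variable, for a numbering `e` of `X` -/
def ord {X : Type} {m : ℕ} (e : X ≃ Fin m) : JJ X → ℕ
  | none => 4 * m
  | some (x, a) => 4 * (e x : ℕ) + a

/-- **The family.** -/
theorem family {P G 𝒢 : Type} [Group P] [TopologicalSpace P] [IsTopologicalGroup P]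
    [Group G] [TopologicalSpace G] [IsTopologicalGroup G]
    [Group 𝒢] [TopologicalSpace 𝒢] [IsTopologicalGroup 𝒢]
    (j : P →* G) (hj : Function.Injective j) (hjo : IsOpenMap j) (hjc : Continuous j)
    (hjn : j.range.Normal)
    (res : 𝒢 →* G) (hres : Continuous res) (hsurj : Function.Surjective res)
    (A : Subgroup G) (hA : A ⊓ j.range = ⊥) (hA' : ∀ g : G, ∃ a ∈ A, ∃ q ∈ j.range, g = q * a)
    {ι V : Type} (M : ℕ) [Finite V] (c : ι × Fin M → P) (σ : P) (hgen : TopGen c σ)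
    (hass : Assign c σ) (a : ι → G) (π : G → ι → ι) (v : ι → V)
    (hπa : ∀ b ∈ A, ∀ τ, a (π b τ) = b * a τ)
    (hπv : ∀ b τ, v (π b τ) = v τ)
    (hπc : ∀ b ∈ A, ∀ τ i, b * j (c (τ, i)) * b⁻¹ = j (c (π b τ, i)))
    (hσ : ∀ b ∈ A, b * j σ * b⁻¹ = j σ)
    (hv : ∀ x : V, ∃ τ, v τ = x ∧ a τ = 1)
    {k : Type} [Field k] [Finite k] [CharP k 2] (ρbar : 𝒢 →* GL (Fin 3) k)
    (hρo : IsOpen (ρbar.ker : Set 𝒢))
    (hρs : ∀ g, res g ∈ j.range → ∃ a : k,
      (ρbar g : Matrix (Fin 3) (Fin 3) k) = a • (1 : Matrix (Fin 3) (Fin 3) k))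
    (hspan : Submodule.span k (Set.range fun g => (ρbar g : Matrix (Fin 3) (Fin 3) k)) = ⊤)
    {m : ℕ} (e : V × Fin M ≃ Fin m) :
    ∃ ρ : 𝒢 →* GL (Fin 3) (MvPowerSeries (JJ (V × Fin M)) k),
      (∀ g, ρ g * (CMB C (ρbar g))⁻¹ ∈ Cg (maximalIdeal (MvPowerSeries (JJ (V × Fin M)) k)) 3 1) ∧
      (∀ m : ℕ, IsOpen (((Cg (maximalIdeal (MvPowerSeries (JJ (V × Fin M)) k)) 3 m).comap ρ :
        Subgroup 𝒢) : Set 𝒢)) ∧
      ∀ n < 4 * m + 1, ∃ b ∈ Algebra.adjoin k
        (Set.range fun g => (ρ g : Matrix (Fin 3) (Fin 3) (MvPowerSeries (JJ (V × Fin M)) k)).trace),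
        kap (fun i => ord e i < n) b ≠ 0 ∧ kap (fun i => ord e i < n + 1) b = 0 := by
  classical
  have hadic := adic k (JJ (V × Fin M))
  choose lf hlf using hsurj
  let R : G → GL (Fin 3) (MvPowerSeries (JJ (V × Fin M)) k) := fun b => CMB C (ρbar (lf b))
  have hRmul : ∀ (g : 𝒢) (b : G) (Y : GL (Fin 3) (MvPowerSeries (JJ (V × Fin M)) k)),
      R (res g * b) * Y * (R (res g * b))⁻¹ =
        CMB C (ρbar g) * (R b * Y * (R b)⁻¹) * (CMB C (ρbar g))⁻¹ := by
    intro g b Y
    obtain ⟨s, hs⟩ := hρs (lf (res g * b) * (g * lf b)⁻¹) (by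
      rw [map_mul, map_inv, map_mul, hlf, hlf, mul_inv_cancel]
      exact Subgroup.one_mem _)
    have := conj_scalar C (ρbar (lf (res g * b))) (ρbar (g * lf b)) s (by
      rw [← map_inv, ← map_mul]; exact hs) Y
    show CMB C (ρbar (lf (res g * b))) * Y * (CMB C (ρbar (lf (res g * b))))⁻¹ = _
    rw [this]
    show _ = CMB C (ρbar g) * (CMB C (ρbar (lf b)) * Y * (CMB C (ρbar (lf b)))⁻¹) * (CMB C (ρbar g))⁻¹
    rw [map_mul, map_mul]
    group
  -- elements of A with prescribed projective image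
  have hAel : ∀ h : 𝒢, ∃ b ∈ A, ∃ s : k,
      (ρbar h : Matrix (Fin 3) (Fin 3) k) = s • (ρbar (lf b) : Matrix (Fin 3) (Fin 3) k) := by
    intro h
    obtain ⟨b, hb, q, hq, hbq⟩ := hA' (res h)
    obtain ⟨s, hs⟩ := hρs (h * (lf b)⁻¹) (by
      rw [map_mul, map_inv, hlf, hbq, mul_inv_cancel_right]
      exact hq)
    refine ⟨b, hb, s, ?_⟩
    have : ρbar h = ρbar (h * (lf b)⁻¹) * ρbar (lf b) := by rw [← map_mul]; congr 1; group
    rw [this, Units.val_mul, hs, Matrix.smul_mul, one_mul]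
  have hne0 : ∀ (g : 𝒢) (s : k), (ρbar g : Matrix (Fin 3) (Fin 3) k) =
      s • (1 : Matrix (Fin 3) (Fin 3) k) → s ≠ 0 := by
    rintro g s hs rfl
    rw [zero_smul] at hs
    have := (ρbar g).isUnit
    rw [hs] at this
    exact not_isUnit_zero this
  -- the unit 1 + x_none
  have hunit : IsUnit (1 + MvPowerSeries.X (none : JJ (V × Fin M)) : MvPowerSeries (JJ (V × Fin M)) k) := by
    rw [MvPowerSeries.isUnit_iff_constantCoeff]
    simp
  obtain ⟨y, hy⟩ := hunit
  let u : GL (Fin 3) (MvPowerSeries (JJ (V × Fin M)) k) :=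
    Units.map (algebraMap (MvPowerSeries (JJ (V × Fin M)) k)
      (Matrix (Fin 3) (Fin 3) (MvPowerSeries (JJ (V × Fin M)) k))).toMonoidHom y
  have hucoe : (u : Matrix (Fin 3) (Fin 3) (MvPowerSeries (JJ (V × Fin M)) k)) =
      algebraMap (MvPowerSeries (JJ (V × Fin M)) k) _
        (1 + MvPowerSeries.X (none : JJ (V × Fin M))) := by
    rw [← hy]; rfl
  have hucomm : ∀ Y : GL (Fin 3) (MvPowerSeries (JJ (V × Fin M)) k), Y * u * Y⁻¹ = u := by
    intro Y
    have : Y * u = u * Y := by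
      apply Units.ext
      rw [Units.val_mul, Units.val_mul, hucoe]
      exact (Algebra.commutes _ _).symm
    rw [this, mul_inv_cancel_right]
  have humem : u ∈ Cg (maximalIdeal (MvPowerSeries (JJ (V × Fin M)) k)) 3 1 := by
    rw [mem_Cg]
    intro a b
    rw [pow_one, mem_max, hucoe, Matrix.sub_apply, Matrix.algebraMap_matrix_apply]
    by_cases hab : a = b
    · subst hab; simp
    · simp [hab]
  -- the assignment
  let t : ι × Fin M → GL (Fin 3) (MvPowerSeries (JJ (V × Fin M)) k) := fun x =>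
    R (a x.1) * XN k (v x.1, x.2) * (R (a x.1))⁻¹
  have ht2 : ∀ x, t x * t x = 1 := by
    intro x
    calc R (a x.1) * XN k (v x.1, x.2) * (R (a x.1))⁻¹ * (R (a x.1) * XN k (v x.1, x.2) * (R (a x.1))⁻¹)
        = R (a x.1) * (XN k (v x.1, x.2) * XN k (v x.1, x.2)) * (R (a x.1))⁻¹ := by group
      _ = 1 := by rw [XN_sq, mul_one, mul_inv_cancel]
  have ht1 : ∀ x, t x ∈ Cg (maximalIdeal (MvPowerSeries (JJ (V × Fin M)) k)) 3 1 := by
    intro x
    have hn : (Cg (maximalIdeal (MvPowerSeries (JJ (V × Fin M)) k)) 3 1).Normal :=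
      MonoidHom.normal_ker _
    exact hn.conj_mem _ (XN_mem _) _
  obtain ⟨ψ, hψ1, hψo, hψc, hψσ⟩ := lim c σ hgen hass
    (maximalIdeal (MvPowerSeries (JJ (V × Fin M)) k)) two_eq_zero_mv
    (finite_quot k (JJ (V × Fin M))) 3 t u ht2 ht1 humem
  have htπ : ∀ g : 𝒢, res g ∈ A → ∀ x : ι × Fin M, t (π (res g) x.1, x.2) =
      CMB C (ρbar g) * t x * (CMB C (ρbar g))⁻¹ := by
    intro g hg x
    show R (a (π (res g) x.1)) * XN k (v (π (res g) x.1), x.2) * (R (a (π (res g) x.1)))⁻¹ =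
      CMB C (ρbar g) * (R (a x.1) * XN k (v x.1, x.2) * (R (a x.1))⁻¹) * (CMB C (ρbar g))⁻¹
    rw [hπv, hπa _ hg, hRmul]
  obtain ⟨ρ, hρ1, hρ2, hρ3⟩ := extend_rep j hj hjo hjc hjn res hres (fun b => ⟨lf b, hlf b⟩) A hA hA'
    c σ hgen (fun g x => (π g x.1, x.2)) (fun b hb x => hπc b hb x.1 x.2) hσ ρbar hρo hρs
    (maximalIdeal (MvPowerSeries (JJ (V × Fin M)) k)) C t htπ u (fun g => hucomm _) ψ hψ1 hψo hψc hψσ
  refine ⟨ρ, hρ1, hρ2, ?_⟩
  set T := Algebra.adjoin k
    (Set.range fun g => (ρ g : Matrix (Fin 3) (Fin 3) (MvPowerSeries (JJ (V × Fin M)) k)).trace) with hT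
  have hTtr : ∀ g, (ρ g : Matrix (Fin 3) (Fin 3) (MvPowerSeries (JJ (V × Fin M)) k)).trace ∈ T :=
    fun g => Algebra.subset_adjoin ⟨g, rfl⟩
  have hTC : ∀ s : k, (C s : MvPowerSeries (JJ (V × Fin M)) k) ∈ T := fun s => T.algebraMap_mem s
  -- the traces `tr (Y N)`
  have key1 : ∀ (x : V × Fin M) (b : G), b ∈ A →
      (((ρbar (lf b) : Matrix (Fin 3) (Fin 3) k).map C) * NN k x).trace ∈ T := by
    rintro ⟨x, i⟩ b hb
    obtain ⟨τ, hτ1, hτ2⟩ := hv x
    obtain ⟨sc, hsc⟩ := hρs (lf (j (c (τ, i)))) (by rw [hlf]; exact ⟨_, rfl⟩)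
    have hsc0 := hne0 _ _ hsc
    have h1 : res (lf b * lf (j (c (τ, i)))) = j (c (π b τ, i)) * b := by
      rw [map_mul, hlf, hlf, ← hπc b hb]
      group
    have h2 := hρ3 _ _ b hb h1
    have h3 : ψ (c (π b τ, i)) = R b * XN k (x, i) * (R b)⁻¹ := by
      rw [hψc]
      show R (a (π b τ)) * XN k (v (π b τ), i) * (R (a (π b τ)))⁻¹ = _
      rw [hπv, hπa b hb, hτ1, hτ2, mul_one]
    have h4 : ρ (lf b * lf (j (c (τ, i)))) =
        CMB C (ρbar (lf b)) * XN k (x, i) * CMB C (ρbar (lf (j (c (τ, i))))) := by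
      rw [h2, h3, map_mul, map_mul]
      show CMB C (ρbar (lf b)) * XN k (x, i) * (CMB C (ρbar (lf b)))⁻¹ *
        (CMB C (ρbar (lf b)) * CMB C (ρbar (lf (j (c (τ, i)))))) = _
      group
    have h5 : (ρ (lf b * lf (j (c (τ, i)))) : Matrix (Fin 3) (Fin 3) _) =
        (C sc : MvPowerSeries (JJ (V × Fin M)) k) •
          ((ρbar (lf b) : Matrix (Fin 3) (Fin 3) k).map C * (1 + NN k (x, i))) := by
      rw [h4, Units.val_mul, Units.val_mul, CMB_scalar C _ _ hsc, Matrix.mul_smul, mul_one]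
      rfl
    have h6 := hTtr (lf b * lf (j (c (τ, i))))
    rw [h5, Matrix.trace_smul, smul_eq_mul, mul_add, mul_one, Matrix.trace_add] at h6
    have h7 : (C sc⁻¹ : MvPowerSeries (JJ (V × Fin M)) k) *
        (C sc * (((ρbar (lf b) : Matrix (Fin 3) (Fin 3) k).map C).trace +
          (((ρbar (lf b) : Matrix (Fin 3) (Fin 3) k).map C) * NN k (x, i)).trace)) -
        C ((ρbar (lf b) : Matrix (Fin 3) (Fin 3) k).trace) ∈ T :=
      T.sub_mem (T.mul_mem (hTC _) h6) (hTC _)
    have h8 : ((ρbar (lf b) : Matrix (Fin 3) (Fin 3) k).map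
        (C : k →+* MvPowerSeries (JJ (V × Fin M)) k)).trace =
        C ((ρbar (lf b) : Matrix (Fin 3) (Fin 3) k).trace) := by
      rw [Matrix.trace, Matrix.trace, map_sum]
      rfl
    rw [← mul_assoc, ← map_mul, inv_mul_cancel₀ hsc0, map_one, one_mul, h8, add_sub_cancel_left] at h7
    exact h7
  have key2 : ∀ (x : V × Fin M) (Y : Matrix (Fin 3) (Fin 3) k),
      ((Y.map C) * NN k x).trace ∈ T := by
    intro x Y
    have hY : Y ∈ Submodule.span k (Set.range fun g => (ρbar g : Matrix (Fin 3) (Fin 3) k)) := by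
      rw [hspan]; trivial
    induction hY using Submodule.span_induction with
    | mem Y hY =>
      obtain ⟨h, rfl⟩ := hY
      obtain ⟨b, hb, s, hs⟩ := hAel h
      have h1 := T.mul_mem (hTC s) (key1 x b hb)
      have h2 : (((ρbar h : Matrix (Fin 3) (Fin 3) k).map
          (C : k →+* MvPowerSeries (JJ (V × Fin M)) k)) * NN k x).trace =
          C s * (((ρbar (lf b) : Matrix (Fin 3) (Fin 3) k).map C) * NN k x).trace := by
        have h3 : (ρbar h : Matrix (Fin 3) (Fin 3) k).map (C : k →+* MvPowerSeries (JJ (V × Fin M)) k) =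
            (C s : MvPowerSeries (JJ (V × Fin M)) k) •
              (ρbar (lf b) : Matrix (Fin 3) (Fin 3) k).map C := by
          rw [hs]
          ext a b
          simp
        rw [h3, Matrix.smul_mul, Matrix.trace_smul, smul_eq_mul]
      rw [h2]
      exact h1
    | zero =>
      have : ((0 : Matrix (Fin 3) (Fin 3) k).map
          (C : k →+* MvPowerSeries (JJ (V × Fin M)) k)) = 0 := by
        ext a b; simp
      rw [this, zero_mul, Matrix.trace_zero]
      exact T.zero_mem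
    | add Y Z _ _ hY hZ =>
      have : ((Y + Z).map (C : k →+* MvPowerSeries (JJ (V × Fin M)) k)) = Y.map C + Z.map C := by
        ext a b; simp
      rw [this, add_mul, Matrix.trace_add]
      exact T.add_mem hY hZ
    | smul s Y _ hY =>
      have : ((s • Y).map (C : k →+* MvPowerSeries (JJ (V × Fin M)) k)) =
          (C s : MvPowerSeries (JJ (V × Fin M)) k) • Y.map C := by
        ext a b; simp
      rw [this, Matrix.smul_mul, Matrix.trace_smul, smul_eq_mul]
      exact T.mul_mem (hTC s) hY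
  -- entries
  have key3 : ∀ (x : V × Fin M) (a b : Fin 3), NN k x a b ∈ T := by
    intro x a b
    have h1 := key2 x (Matrix.single b a 1)
    have h2 : (((Matrix.single b a (1 : k)).map (C : k →+* MvPowerSeries (JJ (V × Fin M)) k)) *
        NN k x).trace = NN k x a b := by
      have h3 : (Matrix.single b a (1 : k)).map (C : k →+* MvPowerSeries (JJ (V × Fin M)) k) =
          Matrix.single b a 1 := by
        ext i l
        simp only [Matrix.map_apply, Matrix.single_apply]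
        split_ifs <;> simp
      rw [h3, Matrix.trace_single_mul]
      simp
    rwa [h2] at h1
  -- the scalar variable
  have key4 : (MvPowerSeries.X (none : JJ (V × Fin M)) : MvPowerSeries (JJ (V × Fin M)) k) ∈ T := by
    obtain ⟨sc, hsc⟩ := hρs (lf (j σ)) (by rw [hlf]; exact ⟨_, rfl⟩)
    have hsc0 := hne0 _ _ hsc
    have h2 := hρ3 (lf (j σ)) σ 1 A.one_mem (by rw [hlf, mul_one])
    have h5 : (ρ (lf (j σ)) : Matrix (Fin 3) (Fin 3) _) =
        ((C sc : MvPowerSeries (JJ (V × Fin M)) k) *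
          (1 + MvPowerSeries.X (none : JJ (V × Fin M)))) •
          (1 : Matrix (Fin 3) (Fin 3) (MvPowerSeries (JJ (V × Fin M)) k)) := by
      rw [h2, hψσ, Units.val_mul, CMB_scalar C _ _ hsc, hucoe, Matrix.mul_smul, mul_one, mul_smul,
        Algebra.algebraMap_eq_smul_one]
    have h6 := hTtr (lf (j σ))
    have h30 : (3 : MvPowerSeries (JJ (V × Fin M)) k) = 1 := by
      have := two_eq_zero_mv (k := k) (X := V × Fin M)
      linear_combination this
    rw [h5, Matrix.trace_smul, Matrix.trace_one, Fintype.card_fin, Nat.cast_ofNat, h30, smul_eq_mul,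
      mul_one] at h6
    have h7 := T.sub_mem (T.mul_mem (hTC sc⁻¹) h6) T.one_mem
    rwa [← mul_assoc, ← map_mul, inv_mul_cancel₀ hsc0, map_one, one_mul, add_sub_cancel_left] at h7
  -- conclusion
  have hdom : IsDomain (MvPowerSeries (JJ (V × Fin M)) k) := NoZeroDivisors.to_isDomain _
  have hX0 : ∀ i : JJ (V × Fin M), (MvPowerSeries.X i : MvPowerSeries (JJ (V × Fin M)) k) ≠ 0 := by
    intro i h
    have h1 := congrArg (coeff (Finsupp.single i 1)) h
    rw [coeff_X, if_pos rfl, map_zero] at h1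
    exact one_ne_zero h1
  intro n hn
  by_cases hn4 : n = 4 * m
  · subst hn4
    refine ⟨_, key4, ?_, ?_⟩
    · rw [kap_X_not _ _ (by show ¬ (4 * m < 4 * m); omega)]
      exact hX0 _
    · exact kap_X_of _ _ (by show 4 * m < 4 * m + 1; omega)
  · have hlt : n / 4 < m := by omega
    obtain ⟨x, hx⟩ := e.surjective ⟨n / 4, hlt⟩
    have hx' : (e x : ℕ) = n / 4 := by rw [hx]
    have hord : ∀ a : Fin 4, ord e (some (x, a)) = 4 * (n / 4) + a := by
      intro a
      show 4 * (e x : ℕ) + a = _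
      rw [hx']
    have hkeep : ∀ a : Fin 4, n % 4 ≤ a →
        kap (fun i => ord e i < n) (xv k x a) = xv k x a := by
      intro a ha
      refine kap_X_not _ _ ?_
      show ¬ (ord e (some (x, a)) < n)
      rw [hord]
      omega
    have hkill : ∀ a : Fin 4, (a : ℕ) = n % 4 →
        kap (fun i => ord e i < n + 1) (xv k x a) = 0 := by
      intro a ha
      refine kap_X_of _ _ ?_
      show ord e (some (x, a)) < n + 1
      rw [hord]
      omega
    have h4 : n % 4 < 4 := Nat.mod_lt _ (by norm_num)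
    interval_cases h : n % 4
    · refine ⟨NN k x 2 1, key3 x 2 1, ?_, ?_⟩
      · rw [NN_21, map_mul, hkeep 0 (by simp), hkeep 3 (by simp)]
        exact mul_ne_zero (hX0 _) (hX0 _)
      · rw [NN_21, map_mul, hkill 0 (by simp), zero_mul]
    · refine ⟨NN k x 1 1, key3 x 1 1, ?_, ?_⟩
      · rw [NN_11, map_mul, hkeep 1 (by simp), hkeep 3 (by simp)]
        exact mul_ne_zero (hX0 _) (hX0 _)
      · rw [NN_11, map_mul, hkill 1 (by simp), zero_mul]
    · refine ⟨NN k x 0 2, key3 x 0 2, ?_, ?_⟩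
      · rw [NN_02, hkeep 2 (by simp)]
        exact hX0 _
      · rw [NN_02, hkill 2 (by simp)]
    · refine ⟨NN k x 0 1, key3 x 0 1, ?_, ?_⟩
      · rw [NN_01, hkeep 3 (by simp)]
        exact hX0 _
      · rw [NN_01, hkill 3 (by simp)]

end Pool.Agent.J6H44.MD
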