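import Pool.Agent.W566.MZ.Asm2

/-!
# The Galois group of the Kummer tower: structure (export of the data of `MZ.asm2`)
-/

set_option autoImplicit false

noncomputable section

namespace Pool.Agent.J6H44.MD

open NumberField MZ

/-- The structure of `Gal(E/F)`, where `E` is the tower of square roots of 2-units over `L`. -/
theorem galdat (hT : StmT) (hSZ : StmSZ)
    {F L E : Type} [Field F] [NumberField F] [Field L] [NumberField L] [Field E]
    [Algebra F L] [Algebra L E] [Algebra F E] [IsScalarTower F L E]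
    [FiniteDimensional F L] [IsGalois F L] [IsGalois F E] [IsGalois L E]
    (h9 : Module.finrank F L = 9)
    (hreal : ∀ τ : L →+* ℂ, ComplexEmbedding.IsReal τ)
    (r : E) (hr2 : r ^ 2 = 2) (hr : r ∉ (algebraMap L E).range)
    (hpro : ProTwo Gal(E/L))
    (hlow : ∀ (φ : (L →+* ℂ) → (E →+* ℂ)) (c : (L →+* ℂ) → Gal(E/L)),
      (∀ τ, (φ τ).comp (algebraMap L E) = τ) → (∀ τ, ComplexEmbedding.IsConj (φ τ) (c τ)) →
      ∀ N : Subgroup Gal(E/L), N.Normal → IsOpen (N : Set Gal(E/L)) →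
        2 ^ (∑ τ, orb N (c τ) + 1) ≤ numHom2 N)
    (hgen : ∀ (φ : (L →+* ℂ) → (E →+* ℂ)) (c : (L →+* ℂ) → Gal(E/L)) (σ : Gal(E/L)),
      (∀ τ, (φ τ).comp (algebraMap L E) = τ) → (∀ τ, ComplexEmbedding.IsConj (φ τ) (c τ)) →
      (∀ r : E, r ^ 2 = 2 → σ r ≠ r) → TopGen c σ) :
    ∃ (A : Subgroup Gal(E/F)) (σ : Gal(E/L)) (c : (L →+* ℂ) → Gal(E/L))
      (a : (L →+* ℂ) → Gal(E/F)) (π : Gal(E/F) → (L →+* ℂ) → (L →+* ℂ))
      (φ : (L →+* ℂ) → (E →+* ℂ)),
      A ⊓ (jR F L E).range = ⊥ ∧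
      (∀ g : Gal(E/F), ∃ a ∈ A, ∃ q ∈ (jR F L E).range, g = q * a) ∧
      (∀ b ∈ A, b * jR F L E σ * b⁻¹ = jR F L E σ) ∧
      TopGen c σ ∧ Assign c σ ∧ (∀ τ, c τ * c τ = 1) ∧
      (∀ τ, a τ ∈ A) ∧ (∀ b ∈ A, ∀ τ, a (π b τ) = b * a τ) ∧
      (∀ b τ, (π b τ).comp (algebraMap F L) = τ.comp (algebraMap F L)) ∧
      (∀ b ∈ A, ∀ τ, b * jR F L E (c τ) * b⁻¹ = jR F L E (c (π b τ))) ∧
      (∀ v : F →+* ℂ, ∃ τ : L →+* ℂ, τ.comp (algebraMap F L) = v ∧ a τ = 1) ∧
      (∀ τ, (φ τ).comp (algebraMap L E) = τ) ∧ (∀ τ, ComplexEmbedding.IsConj (φ τ) (c τ)) := by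
  classical
  haveI : CharZero E := charZero_of_injective_algebraMap (algebraMap F E).injective
  -- basic group data
  let P := Gal(E/L)
  let G := Gal(E/F)
  let j : Gal(E/L) →* Gal(E/F) := jR F L E
  have hjinj : Function.Injective j := jR_inj
  have hjo : IsOpenMap j := isOpenMap_jR
  have hjc : Continuous j := continuous_jR
  let rL : Gal(E/F) →* Gal(L/F) := AlgEquiv.restrictNormalHom L
  have hrange : j.range = rL.ker := range_jR_eq_ker
  have hjn : j.range.Normal := by rw [hrange]; exact MonoidHom.normal_ker _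
  have hrLsurj : Function.Surjective rL := AlgEquiv.restrictNormalHom_surjective E
  have hPopen : IsOpen (j.range : Set Gal(E/F)) := by
    rw [MonoidHom.coe_range]
    exact hjo.isOpen_range
  have hcard9 : Nat.card (Gal(E/F) ⧸ j.range) = 9 := by
    rw [hrange]
    rw [Nat.card_congr (QuotientGroup.quotientKerEquivOfSurjective rL hrLsurj).toEquiv,
      IsGalois.card_aut_eq_finrank, h9]
  -- the element √2
  have hr0 : r ≠ 0 := by
    rintro rfl
    norm_num at hr2
  have hsq : ∀ g : Gal(E/F), g r = r ∨ g r = -r := by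
    intro g
    have : (g r) ^ 2 = r ^ 2 := by rw [← map_pow, hr2, map_ofNat]
    exact sq_eq_sq_iff_eq_or_eq_neg.mp this
  have hneg : r ≠ -r := by
    intro h
    have : (2 : E) * r = 0 := by linear_combination h
    rcases mul_eq_zero.mp this with h2 | h2
    · norm_num at h2
    · exact hr0 h2
  let D : Subgroup Gal(E/F) := j.range ⊓ MulAction.stabilizer Gal(E/F) r
  have hDmem : ∀ g, g ∈ D ↔ g ∈ j.range ∧ g r = r := fun g => Iff.rfl
  have hDn : D.Normal := by
    constructor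
    intro n hn g
    rw [hDmem] at hn ⊢
    refine ⟨hjn.conj_mem _ hn.1 g, ?_⟩
    show g (n (g⁻¹ r)) = r
    have hginv : g (g⁻¹ r) = r := by
      show (g * g⁻¹) r = r
      rw [mul_inv_cancel, AlgEquiv.one_apply]
    rcases hsq g⁻¹ with h | h
    · rw [h] at hginv ⊢
      rw [hn.2, hginv]
    · rw [h] at hginv ⊢
      rw [map_neg, hn.2, hginv]
  have hDo : IsOpen (D : Set Gal(E/F)) := by
    rw [Subgroup.coe_inf]
    exact hPopen.inter (isOpen_stab r)
  -- some element of P moves r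
  obtain ⟨p₀, hp₀⟩ : ∃ p : Gal(E/L), p r ≠ r := by
    by_contra hcon
    push Not at hcon
    exact hr ((InfiniteGalois.mem_range_algebraMap_iff_fixed r).mpr hcon)
  have hDidx : D.relIndex j.range = 2 := by
    rw [Subgroup.relIndex, Subgroup.index_eq_two_iff]
    refine ⟨⟨j p₀, p₀, rfl⟩, ?_⟩
    rintro ⟨b, hb⟩
    rw [Subgroup.mem_subgroupOf, Subgroup.mem_subgroupOf]
    have e1 : (j p₀) r = -r := by
      rcases hsq (j p₀) with h | h
      · exact absurd h hp₀
      · exact h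
    simp only [hDmem, Subgroup.coe_mul]
    rcases hsq b with h | h
    · right
      refine ⟨⟨hb, h⟩, ?_⟩
      rintro ⟨-, h2⟩
      have : b ((j p₀) r) = r := h2
      rw [e1, map_neg, h] at this
      exact hneg this.symm
    · left
      refine ⟨⟨mul_mem hb ⟨p₀, rfl⟩, ?_⟩, ?_⟩
      · show b ((j p₀) r) = r
        rw [e1, map_neg, h, neg_neg]
      · rintro ⟨-, h2⟩
        rw [h] at h2
        exact hneg h2.symm
  have hpro' : ∀ N : Subgroup Gal(E/F), N.Normal → IsOpen (N : Set Gal(E/F)) → N ≤ j.range →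
      ∃ e : ℕ, N.relIndex j.range = 2 ^ e := by
    intro N hN hNo _
    obtain ⟨e, he⟩ := hpro (N.comap j) (hN.comap j) (hNo.preimage hjc)
    refine ⟨e, ?_⟩
    rw [← he, ← Subgroup.index_comap]
    rfl
  obtain ⟨A, σ₀, hA, hA', hσP, hσD, hσA⟩ := hSZ Gal(E/F) j.range D hjn hPopen hDn hDo inf_le_left
    hDidx ⟨2, by rw [hcard9]; norm_num⟩ hpro'
  obtain ⟨σ, rfl⟩ := hσP
  have hσr : ∀ r' : E, r' ^ 2 = 2 → σ r' ≠ r' := by
    intro r' hr' hfix
    have : r' = r ∨ r' = -r := sq_eq_sq_iff_eq_or_eq_neg.mp (by rw [hr', hr2])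
    apply hσD
    rw [hDmem]
    refine ⟨⟨σ, rfl⟩, ?_⟩
    show σ r = r
    rcases this with h | h
    · rw [← h]; exact hfix
    · rw [h, map_neg, neg_inj] at hfix; exact hfix
  -- embeddings
  have hext : ∀ v : F →+* ℂ, ∃ φ : E →+* ℂ, φ.comp (algebraMap F E) = v := by
    intro v
    letI := v.toAlgebra
    haveI : Algebra.IsAlgebraic F E := inferInstance
    let f : E →ₐ[F] ℂ := IsAlgClosed.lift
    exact ⟨f.toRingHom, f.comp_algebraMap⟩
  choose Φ hΦ using hext
  -- complex conjugations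
  have hconj : ∀ φ : E →+* ℂ, ∃ c : Gal(E/L), ComplexEmbedding.IsConj φ c := by
    intro φ
    have h1 : φ.comp (algebraMap L E) = (ComplexEmbedding.conjugate φ).comp (algebraMap L E) := by
      have := hreal (φ.comp (algebraMap L E))
      rw [ComplexEmbedding.isReal_iff] at this
      rw [← this]
      ext x
      rfl
    obtain ⟨s, hs⟩ := NumberField.ComplexEmbedding.exists_comp_symm_eq_of_comp_eq φ
      (ComplexEmbedding.conjugate φ) h1
    exact ⟨s.symm, hs.symm⟩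
  -- the element a τ
  have hres : ∀ τ : L →+* ℂ, ∃ a ∈ A, ∀ x : L,
      Φ (τ.comp (algebraMap F L)) (a⁻¹ (algebraMap L E x)) = τ x := by
    intro τ
    set v := τ.comp (algebraMap F L) with hv
    have h1 : ((Φ v).comp (algebraMap L E)).comp (algebraMap F L) = τ.comp (algebraMap F L) := by
      rw [RingHom.comp_assoc, ← IsScalarTower.algebraMap_eq, hΦ v]
    obtain ⟨s, hs⟩ := NumberField.ComplexEmbedding.exists_comp_symm_eq_of_comp_eq
      ((Φ v).comp (algebraMap L E)) τ h1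
    obtain ⟨g, hg⟩ := hrLsurj s
    obtain ⟨a, ha, q, hq, hgq⟩ := hA' g
    refine ⟨a, ha, ?_⟩
    intro x
    have h2 : rL a = s := by
      have : rL q = 1 := by
        rw [hrange] at hq
        exact hq
      rw [← hg, hgq, map_mul, this, one_mul]
    have h3 : a⁻¹ (algebraMap L E x) = algebraMap L E (s.symm x) := by
      have h4 := res_apply (F := F) (E := L) (K := E) a⁻¹ x
      rw [← h4]
      congr 1
      show (rL a⁻¹) x = _
      rw [map_inv, h2]
      rfl
    rw [h3]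
    exact RingHom.congr_fun hs x
  choose a haA ha using hres
  -- uniqueness of a
  have hauniq : ∀ (τ : L →+* ℂ) (b : Gal(E/F)), b ∈ A →
      (∀ x : L, Φ (τ.comp (algebraMap F L)) (b⁻¹ (algebraMap L E x)) = τ x) → b = a τ := by
    intro τ b hb hbx
    have h1 : a τ * b⁻¹ ∈ j.range := by
      rw [mem_range_jR]
      intro x
      have h2 : b⁻¹ (algebraMap L E x) = (a τ)⁻¹ (algebraMap L E x) := by
        apply (Φ (τ.comp (algebraMap F L))).injective
        rw [hbx, ha]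
      show (a τ) (b⁻¹ (algebraMap L E x)) = _
      rw [h2]
      show ((a τ) * (a τ)⁻¹) (algebraMap L E x) = _
      rw [mul_inv_cancel, AlgEquiv.one_apply]
    have h3 : a τ * b⁻¹ ∈ A ⊓ j.range := ⟨A.mul_mem (haA τ) (A.inv_mem hb), h1⟩
    rw [hA, Subgroup.mem_bot, mul_inv_eq_one] at h3
    exact h3.symm
  let φ : (L →+* ℂ) → (E →+* ℂ) := fun τ =>
    (Φ (τ.comp (algebraMap F L))).comp ((a τ)⁻¹ : Gal(E/F)).toRingEquiv.toRingHom
  have hφ : ∀ τ, (φ τ).comp (algebraMap L E) = τ := by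
    intro τ
    ext x
    exact ha τ x
  choose cv hcv using fun v : F →+* ℂ => hconj (Φ v)
  have hcc : ∀ τ : L →+* ℂ, ∃ q : Gal(E/L), j q = a τ * j (cv (τ.comp (algebraMap F L))) * (a τ)⁻¹ :=
    fun τ => hjn.conj_mem _ ⟨_, rfl⟩ (a τ)
  choose c hc using hcc
  have hcφ : ∀ τ, ComplexEmbedding.IsConj (φ τ) (c τ) := by
    intro τ
    have h1 := hcv (τ.comp (algebraMap F L))
    rw [ComplexEmbedding.IsConj] at h1 ⊢
    ext x
    have h2 := RingHom.congr_fun h1 ((a τ)⁻¹ x)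
    have h3 : (c τ) x = (a τ) ((cv (τ.comp (algebraMap F L))) ((a τ)⁻¹ x)) := by
      have := congrArg (fun g : Gal(E/F) => g x) (hc τ)
      exact this
    show ComplexEmbedding.conjugate (φ τ) x = (Φ (τ.comp (algebraMap F L))) ((a τ)⁻¹ ((c τ) x))
    rw [h3]
    have h4 : (a τ)⁻¹ ((a τ) ((cv (τ.comp (algebraMap F L))) ((a τ)⁻¹ x))) =
        (cv (τ.comp (algebraMap F L))) ((a τ)⁻¹ x) := by
      show ((a τ)⁻¹ * (a τ)) _ = _
      rw [inv_mul_cancel, AlgEquiv.one_apply]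
    rw [h4]
    exact h2
  have hTG : TopGen c σ := hgen φ c σ hφ hcφ hσr
  have hc2 : ∀ τ, c τ * c τ = 1 := by
    intro τ
    have h1 := hcφ τ
    rw [ComplexEmbedding.IsConj] at h1
    ext x
    apply (φ τ).injective
    have h2 := RingHom.congr_fun h1 ((c τ) x)
    have h3 := RingHom.congr_fun h1 x
    show (φ τ) ((c τ) ((c τ) x)) = (φ τ) x
    have h4 : (φ τ) ((c τ) ((c τ) x)) = star ((φ τ) ((c τ) x)) := h2.symm
    have h5 : (φ τ) ((c τ) x) = star ((φ τ) x) := h3.symm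
    rw [h4, h5, star_star]
  have hAssign : Assign c σ := hT Gal(E/L) hpro (L →+* ℂ) c σ hc2 hTG
    (fun N hN hNo => by
      have := hlow φ c hφ hcφ N hN hNo
      convert this)
  let π : Gal(E/F) → (L →+* ℂ) → (L →+* ℂ) := fun b τ =>
    τ.comp ((rL b)⁻¹ : Gal(L/F)).toRingEquiv.toRingHom
  have hπv : ∀ b τ, (π b τ).comp (algebraMap F L) = τ.comp (algebraMap F L) := by
    intro b τ
    ext x
    show τ ((rL b)⁻¹ (algebraMap F L x)) = τ (algebraMap F L x)
    rw [AlgEquiv.commutes]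
  have hπa : ∀ b ∈ A, ∀ τ, a (π b τ) = b * a τ := by
    intro b hb τ
    refine (hauniq (π b τ) (b * a τ) (A.mul_mem hb (haA τ)) ?_).symm
    intro x
    rw [hπv]
    have h1 : (b * a τ)⁻¹ (algebraMap L E x) = (a τ)⁻¹ (algebraMap L E ((rL b)⁻¹ x)) := by
      rw [_root_.mul_inv_rev]
      show (a τ)⁻¹ (b⁻¹ (algebraMap L E x)) = _
      congr 1
      have h4 := res_apply (F := F) (E := L) (K := E) b⁻¹ x
      rw [← h4]
      congr 1
      show (rL b⁻¹) x = _
      rw [map_inv]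
    rw [h1]
    exact ha τ _
  have hπc : ∀ b ∈ A, ∀ τ, b * j (c τ) * b⁻¹ = j (c (π b τ)) := by
    intro b hb τ
    rw [hc, hc, hπa b hb, hπv]
    group
  have hσc : ∀ b ∈ A, b * j σ * b⁻¹ = j σ := by
    intro b hb
    rw [hσA b hb, mul_inv_cancel_right]
  refine ⟨A, σ, c, a, π, φ, hA, hA', hσc, hTG, hAssign, hc2, haA, hπa, hπv, hπc, ?_, hφ, hcφ⟩
  intro v
  refine ⟨(Φ v).comp (algebraMap L E), ?_, ?_⟩
  · rw [RingHom.comp_assoc, ← IsScalarTower.algebraMap_eq, hΦ v]
  · have hv : ((Φ v).comp (algebraMap L E)).comp (algebraMap F L) = v := by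
      rw [RingHom.comp_assoc, ← IsScalarTower.algebraMap_eq, hΦ v]
    refine (hauniq _ 1 A.one_mem ?_).symm
    intro x
    rw [hv, inv_one, AlgEquiv.one_apply]
    rfl

end Pool.Agent.J6H44.MD
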