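import Pool.Agent.J6H44.MD.Tower
import Pool.Agent.J6H44.MD.GalDat

/-!
# The levels of the tower
-/

set_option autoImplicit false

noncomputable section

namespace Pool.Agent.J6H44.MD

open NumberField MZ Topology

/-- extension of a homomorphism from a normal subgroup with a complement -/
theorem extend_hom {P G H : Type} [Group P] [Group G] [Group H] (j : P →* G)
    (hj : Function.Injective j) (hjn : j.range.Normal)
    (A : Subgroup G) (hA : A ⊓ j.range = ⊥) (hA' : ∀ g : G, ∃ a ∈ A, ∃ q ∈ j.range, g = q * a)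
    (ψ : P →* H) (hψ : ∀ b ∈ A, ∀ q q' : P, j q' = b * j q * b⁻¹ → ψ q' = ψ q) :
    ∃ Ψ : G →* H, ∀ q, ∀ a ∈ A, Ψ (j q * a) = ψ q := by
  have hdec : ∀ g : G, ∃ q : P, ∃ a ∈ A, g = j q * a := by
    intro g
    obtain ⟨a, ha, x, ⟨q, rfl⟩, h⟩ := hA' g
    exact ⟨q, a, ha, h⟩
  choose Q α hα hQ using hdec
  have huniq : ∀ (q q' : P) (a a' : G), a ∈ A → a' ∈ A → j q * a = j q' * a' → q = q' ∧ a = a' := by
    intro q q' a a' ha ha' h
    have h1 : a * a'⁻¹ ∈ A ⊓ j.range := by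
      refine ⟨A.mul_mem ha (A.inv_mem ha'), q⁻¹ * q', ?_⟩
      rw [map_mul, map_inv, inv_mul_eq_iff_eq_mul, ← mul_assoc, h, mul_inv_cancel_right]
    rw [hA, Subgroup.mem_bot, mul_inv_eq_one] at h1
    subst h1
    exact ⟨hj (mul_right_cancel h), rfl⟩
  refine ⟨MonoidHom.mk' (fun g => ψ (Q g)) ?_, ?_⟩
  · intro g g'
    obtain ⟨q₁, hq₁⟩ := hjn.conj_mem _ ⟨Q g', rfl⟩ (α g)
    have e1 : j (Q (g * g')) * α (g * g') = j (Q g * q₁) * (α g * α g') := by
      rw [← hQ, map_mul, hq₁]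
      nth_rewrite 1 [hQ g, hQ g']
      group
    obtain ⟨e2, -⟩ := huniq _ _ _ _ (hα _) (A.mul_mem (hα g) (hα g')) e1
    show ψ (Q (g * g')) = ψ (Q g) * ψ (Q g')
    rw [e2, map_mul, hψ (α g) (hα g) (Q g') q₁ hq₁]
  · intro q a ha
    have e1 : j (Q (j q * a)) * α (j q * a) = j q * a := (hQ _).symm
    obtain ⟨e2, -⟩ := huniq _ _ _ _ (hα _) ha e1
    show ψ (Q (j q * a)) = ψ q
    rw [e2]

/-- **The levels of the tower.** -/
theorem level (hT : StmT) (hSZ : StmSZ)
    {F L E : Type} [Field F] [NumberField F] [Field L] [NumberField L] [Field E]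
    [Algebra F L] [Algebra L E] [Algebra F E] [IsScalarTower F L E]
    [FiniteDimensional F L] [IsGalois F L] [IsGalois F E] [IsGalois L E]
    (h9 : Module.finrank F L = 9)
    (hreal : ∀ τ : L →+* ℂ, ComplexEmbedding.IsReal τ)
    (r : E) (hr2 : r ^ 2 = 2) (hr : r ∉ (algebraMap L E).range)
    (hpro : ProTwo Gal(E/L))
    (hlow : ∀ (φ : (L →+* ℂ) → (E →+* ℂ)) (c : (L →+* ℂ) → Gal(E/L)),
      (∀ τ, (φ τ).comp (algebraMap L E) = τ) → (∀ τ, ComplexEmbedding.IsConj (φ τ) (c τ)) →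
      ∀ N : Subgroup Gal(E/L), N.Normal → IsOpen (N : Set Gal(E/L)) →
        2 ^ (∑ τ, orb N (c τ) + 1) ≤ numHom2 N)
    (hgen : ∀ (φ : (L →+* ℂ) → (E →+* ℂ)) (c : (L →+* ℂ) → Gal(E/L)) (σ : Gal(E/L)),
      (∀ τ, (φ τ).comp (algebraMap L E) = τ) → (∀ τ, ComplexEmbedding.IsConj (φ τ) (c τ)) →
      (∀ r : E, r ^ 2 = 2 → σ r ≠ r) → TopGen c σ) (N : ℕ) :
    ∃ F' : IntermediateField F E, FiniteDimensional F F' ∧ Module.finrank F F' = 2 ^ N ∧
      (∀ ψ : F' →+* ℂ, ComplexEmbedding.IsReal ψ) ∧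
      ∃ (P : Type) (_ : Group P) (_ : TopologicalSpace P) (_ : IsTopologicalGroup P)
        (j : P →* Gal(E/F')) (A : Subgroup Gal(E/F'))
        (c : (L →+* ℂ) × Fin (2 ^ N) → P) (σ : P)
        (a : (L →+* ℂ) → Gal(E/F')) (π : Gal(E/F') → (L →+* ℂ) → (L →+* ℂ)),
        Function.Injective j ∧ IsOpenMap j ∧ Continuous j ∧ j.range.Normal ∧
        (∀ g ∈ j.range, ∀ x : L, g (algebraMap L E x) = algebraMap L E x) ∧
        A ⊓ j.range = ⊥ ∧ (∀ g : Gal(E/F'), ∃ a ∈ A, ∃ q ∈ j.range, g = q * a) ∧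
        (∀ b ∈ A, b * j σ * b⁻¹ = j σ) ∧ TopGen c σ ∧ Assign c σ ∧
        (∀ τ, a τ ∈ A) ∧ (∀ b ∈ A, ∀ τ, a (π b τ) = b * a τ) ∧
        (∀ b τ, (π b τ).comp (algebraMap F L) = τ.comp (algebraMap F L)) ∧
        (∀ b ∈ A, ∀ τ i, b * j (c (τ, i)) * b⁻¹ = j (c (π b τ, i))) ∧
        (∀ v : F →+* ℂ, ∃ τ : L →+* ℂ, τ.comp (algebraMap F L) = v ∧ a τ = 1) := by
  classical
  obtain ⟨A, σ, c, a, π, φ, hA, hA', hσA, hTG, hAs, hc2, haA, hπa, hπv, hπc, hv, hφ, hcφ⟩ :=
    galdat hT hSZ h9 hreal r hr2 hr hpro hlow hgen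
  obtain ⟨χ, hχo, hχc, hχσ, c', σ', hc', hσ', hTG', hAs'⟩ := tower c σ hTG hAs N
  have hN0 : NeZero (2 ^ N) := ⟨by positivity⟩
  have hjinj : Function.Injective (jR F L E) := jR_inj
  have hjo : IsOpenMap (jR F L E) := isOpenMap_jR
  have hjc : Continuous (jR F L E) := continuous_jR
  have hjn : (jR F L E).range.Normal := by
    rw [range_jR_eq_ker]; exact MonoidHom.normal_ker _
  -- invariance of χ
  have hχinv : ∀ b ∈ A, ∀ q q' : Gal(E/L), jR F L E q' = b * jR F L E q * b⁻¹ → χ q' = χ q := by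
    intro b hb
    let cb : Gal(E/L) → Gal(E/L) := fun q => (hjn.conj_mem _ ⟨q, rfl⟩ b).choose
    have hcb : ∀ q, jR F L E (cb q) = b * jR F L E q * b⁻¹ := fun q =>
      (hjn.conj_mem _ ⟨q, rfl⟩ b).choose_spec
    let cbH : Gal(E/L) →* Gal(E/L) := MonoidHom.mk' cb (fun x y => by
      apply hjinj
      rw [map_mul, hcb, hcb, hcb, map_mul]
      group)
    have hcbc : Continuous cbH := by
      have hemb : Topology.IsOpenEmbedding (jR F L E) :=
        Topology.IsOpenEmbedding.of_continuous_injective_isOpenMap hjc hjinj hjo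
      rw [hemb.isInducing.continuous_iff]
      have : (jR F L E ∘ cbH) = fun q => b * jR F L E q * b⁻¹ := by
        funext q
        exact hcb q
      rw [this]
      fun_prop
    have htop : (χ.comp cbH).eqLocus χ = ⊤ := by
      apply hTG
      · refine Subgroup.isOpen_mono (H₁ := χ.ker.comap cbH ⊓ χ.ker) ?_
          ((hχo.preimage hcbc).inter hχo)
        rintro x ⟨hx1, hx2⟩
        have e1 : χ (cbH x) = 1 := hx1
        have e2 : χ x = 1 := hx2
        show χ (cbH x) = χ x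
        rw [e1, e2]
      · intro τ
        have : cb (c τ) = c (π b τ) := by
          apply hjinj
          rw [hcb, hπc b hb τ]
        show χ (cb (c τ)) = χ (c τ)
        rw [this, hχc, hχc]
      · have : cb σ = σ := by
          apply hjinj
          rw [hcb, hσA b hb]
        show χ (cb σ) = χ σ
        rw [this]
    intro q q' hq
    have e : q' = cb q := hjinj (by rw [hq, hcb])
    have hq2 : q ∈ (χ.comp cbH).eqLocus χ := by rw [htop]; exact Subgroup.mem_top q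
    rw [e]
    exact hq2
  obtain ⟨Ψ, hΨ⟩ := extend_hom (jR F L E) hjinj hjn A hA hA' χ hχinv
  have hΨj : ∀ q, Ψ (jR F L E q) = χ q := by
    intro q
    have := hΨ q 1 A.one_mem
    rwa [mul_one] at this
  have hΨA : ∀ b ∈ A, Ψ b = 1 := by
    intro b hb
    have := hΨ 1 b hb
    rwa [map_one, one_mul, map_one] at this
  have hΨo : IsOpen (Ψ.ker : Set Gal(E/F)) := by
    refine Subgroup.isOpen_mono (H₁ := χ.ker.map (jR F L E)) ?_ ?_
    · rintro _ ⟨q, hq, rfl⟩
      show Ψ (jR F L E q) = 1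
      rw [hΨj]
      exact hq
    · rw [Subgroup.coe_map]
      exact hjo _ hχo
  have hΨs : Function.Surjective Ψ := by
    intro y
    refine ⟨jR F L E (σ ^ (Multiplicative.toAdd y : ZMod (2 ^ N)).val), ?_⟩
    rw [hΨj, map_pow, hχσ, ← ofAdd_nsmul, nsmul_one, ZMod.natCast_zmod_val]
    rfl
  let F' : IntermediateField F E := IntermediateField.fixedField Ψ.ker
  have hfix : F'.fixingSubgroup = Ψ.ker := by
    have hcl : IsClosed (Ψ.ker : Set Gal(E/F)) := Subgroup.isClosed_of_isOpen _ hΨo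
    exact InfiniteGalois.fixingSubgroup_fixedField ⟨Ψ.ker, hcl⟩
  have hfd : FiniteDimensional F F' := by
    rw [← InfiniteGalois.isOpen_iff_finite, hfix]
    exact hΨo
  have hdeg : Module.finrank F F' = 2 ^ N := by
    rw [IntermediateField.finrank_eq_fixingSubgroup_index, hfix, Subgroup.index_ker,
      MonoidHom.range_eq_top.mpr hΨs]
    rw [Subgroup.card_top]
    exact Nat.card_zmod (2 ^ N)
  have hmemF' : ∀ g : Gal(E/F), Ψ g = 1 → ∀ x : F', g (x : E) = x := by
    intro g hg x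
    have : g ∈ F'.fixingSubgroup := by rw [hfix]; exact hg
    exact (IntermediateField.mem_fixingSubgroup_iff _ _).mp this x x.2
  have hΨF' : ∀ g : Gal(E/F'), Ψ (jR F F' E g) = 1 := by
    intro g
    have : jR F F' E g ∈ F'.fixingSubgroup := by
      rw [IntermediateField.mem_fixingSubgroup_iff]
      intro x hx
      exact g.commutes ⟨x, hx⟩
    rw [hfix] at this
    exact this
  -- lifting elements
  have hlift : ∀ g : Gal(E/F), Ψ g = 1 → ∃ g' : Gal(E/F'), jR F F' E g' = g := by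
    intro g hg
    have : g ∈ (jR F F' E).range := by
      rw [mem_range_jR]
      exact hmemF' g hg
    exact this
  have hj'inj : Function.Injective (jR F F' E) := jR_inj
  have hj'o : IsOpenMap (jR F F' E) := isOpenMap_jR
  have hj'c : Continuous (jR F F' E) := continuous_jR
  -- the homomorphism j'
  have hjex : ∀ q : χ.ker, ∃ g' : Gal(E/F'), jR F F' E g' = jR F L E q := fun q =>
    hlift _ (by rw [hΨj]; exact q.2)
  choose j0 hj0 using hjex
  let j' : χ.ker →* Gal(E/F') := MonoidHom.mk' j0 (fun x y => by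
    apply hj'inj
    rw [map_mul, hj0, hj0, hj0, Subgroup.coe_mul, map_mul])
  have hj' : ∀ q, jR F F' E (j' q) = jR F L E q := hj0
  have haex : ∀ τ, ∃ g' : Gal(E/F'), jR F F' E g' = a τ := fun τ => hlift _ (hΨA _ (haA τ))
  choose a' ha' using haex
  have hemb' : Topology.IsOpenEmbedding (jR F F' E) :=
    Topology.IsOpenEmbedding.of_continuous_injective_isOpenMap hj'c hj'inj hj'o
  have hrange : ∀ g : Gal(E/F'), g ∈ j'.range ↔ jR F F' E g ∈ (jR F L E).range := by
    intro g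
    constructor
    · rintro ⟨q, rfl⟩
      exact ⟨q, (hj' q).symm⟩
    · rintro ⟨q, hq⟩
      have h1 : χ q = 1 := by rw [← hΨj, hq, hΨF']
      refine ⟨⟨q, h1⟩, ?_⟩
      apply hj'inj
      rw [hj', hq]
  refine ⟨F', hfd, hdeg, ?_, χ.ker, inferInstance, inferInstance, inferInstance, j',
    A.comap (jR F F' E), c', σ', a', fun g => π (jR F F' E g), ?_, ?_, ?_, ?_, ?_, ?_, ?_, ?_,
    hTG', hAs', ?_, ?_, ?_, ?_, ?_⟩
  · -- totally real
    intro ψ
    obtain ⟨Φ, hΦ⟩ : ∃ Φ : E →+* ℂ, Φ.comp (algebraMap F' E) = ψ := by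
      let _ := ψ.toAlgebra
      have : Algebra.IsAlgebraic F' E := Algebra.IsAlgebraic.tower_top (K := F) F'
      let f : E →ₐ[F'] ℂ := IsAlgClosed.lift
      exact ⟨f.toRingHom, f.comp_algebraMap⟩
    have hτ := hφ (Φ.comp (algebraMap L E))
    obtain ⟨g, hg⟩ := NumberField.ComplexEmbedding.exists_comp_symm_eq_of_comp_eq
      (φ (Φ.comp (algebraMap L E))) Φ hτ
    have hcj := hcφ (Φ.comp (algebraMap L E))
    rw [ComplexEmbedding.IsConj] at hcj
    rw [ComplexEmbedding.isReal_iff]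
    ext x
    have h1 : ∀ y : E, φ (Φ.comp (algebraMap L E)) (g.symm y) = Φ y := fun y =>
      RingHom.congr_fun hg y
    have h2 : ∀ y : E, star (φ (Φ.comp (algebraMap L E)) y) =
        φ (Φ.comp (algebraMap L E)) (c (Φ.comp (algebraMap L E)) y) := fun y =>
      RingHom.congr_fun hcj y
    have h3 : ψ x = Φ (x : E) := (RingHom.congr_fun hΦ x).symm
    show star (ψ x) = ψ x
    rw [h3, ← h1, h2]
    congr 1
    have h4 : Ψ (jR F L E (g * c (Φ.comp (algebraMap L E)) * g⁻¹)) = 1 := by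
      rw [hΨj, map_mul, map_mul, hχc, mul_one, map_inv, mul_inv_cancel]
    have h5 := hmemF' _ h4 x
    have h6 : g (c (Φ.comp (algebraMap L E)) (g.symm (x : E))) = x := h5
    calc c (Φ.comp (algebraMap L E)) (g.symm (x : E))
        = g.symm (g (c (Φ.comp (algebraMap L E)) (g.symm (x : E)))) := (g.symm_apply_apply _).symm
      _ = g.symm (x : E) := by rw [h6]
  · intro x y h
    apply Subtype.ext
    apply hjinj
    rw [← hj', ← hj', h]
  · intro U hU
    have h1 : IsOpen ((jR F L E) '' (Subtype.val '' U)) :=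
      hjo _ (hχo.isOpenMap_subtype_val _ hU)
    have h2 : (j' '' U) = (jR F F' E) ⁻¹' ((jR F L E) '' (Subtype.val '' U)) := by
      ext g
      constructor
      · rintro ⟨q, hq, rfl⟩
        exact ⟨q, ⟨q, hq, rfl⟩, (hj' q).symm⟩
      · rintro ⟨_, ⟨q, hq, rfl⟩, h⟩
        refine ⟨q, hq, ?_⟩
        apply hj'inj
        rw [hj', h]
    rw [h2]
    exact h1.preimage hj'c
  · rw [hemb'.isInducing.continuous_iff]
    have : (jR F F' E ∘ j') = fun q : χ.ker => jR F L E (q : Gal(E/L)) := by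
      funext q
      exact hj' q
    rw [this]
    exact hjc.comp continuous_subtype_val
  · constructor
    intro g hg h
    rw [hrange] at hg ⊢
    rw [map_mul, map_mul, map_inv]
    exact hjn.conj_mem _ hg _
  · rintro _ ⟨q, rfl⟩ x
    have h1 := congrArg (fun g : Gal(E/F) => g (algebraMap L E x)) (hj' q)
    exact h1.trans ((q : Gal(E/L)).commutes x)
  · rw [eq_bot_iff]
    rintro g ⟨hg1, hg2⟩
    have h1 : jR F F' E g ∈ A ⊓ (jR F L E).range := ⟨hg1, (hrange g).mp hg2⟩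
    rw [hA, Subgroup.mem_bot] at h1
    rw [Subgroup.mem_bot]
    exact hj'inj (by rw [h1, map_one])
  · intro g
    obtain ⟨b, hb, q, hq, hgq⟩ := hA' (jR F F' E g)
    obtain ⟨b', hb'⟩ := hlift b (hΨA b hb)
    have hq1 : Ψ q = 1 := by
      have h1 := hΨF' g
      rwa [hgq, map_mul, hΨA b hb, mul_one] at h1
    obtain ⟨q', hq'⟩ := hlift q hq1
    refine ⟨b', ?_, q', ?_, ?_⟩
    · show jR F F' E b' ∈ A
      rw [hb']
      exact hb
    · rw [hrange, hq']
      exact hq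
    · apply hj'inj
      rw [map_mul, hb', hq', hgq]
  · intro b hb
    apply hj'inj
    have h1 : jR F F' E (j' σ') = (jR F L E σ) ^ (2 ^ N) := by rw [hj', hσ', map_pow]
    rw [map_mul, map_mul, map_inv, h1, ← conj_pow, hσA _ hb]
  · intro τ
    show jR F F' E (a' τ) ∈ A
    rw [ha']
    exact haA τ
  · intro b hb τ
    apply hj'inj
    rw [map_mul, ha', ha', hπa _ hb]
  · intro b τ
    exact hπv _ _
  · intro b hb τ i
    apply hj'inj
    have h1 : ∀ τ, jR F F' E (j' (c' (τ, i))) =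
        (jR F L E σ) ^ (i : ℕ) * jR F L E (c τ) * ((jR F L E σ) ^ (i : ℕ))⁻¹ := by
      intro τ
      rw [hj', hc', map_mul, map_mul, map_inv, map_pow]
    rw [map_mul, map_mul, map_inv, h1, h1, ← hπc _ hb]
    have h2 : jR F F' E b * (jR F L E σ) ^ (i : ℕ) * (jR F F' E b)⁻¹ = (jR F L E σ) ^ (i : ℕ) := by
      rw [← conj_pow, hσA _ hb]
    calc jR F F' E b * ((jR F L E σ) ^ (i : ℕ) * jR F L E (c τ) * ((jR F L E σ) ^ (i : ℕ))⁻¹) *
          (jR F F' E b)⁻¹
        = (jR F F' E b * (jR F L E σ) ^ (i : ℕ) * (jR F F' E b)⁻¹) *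
          (jR F F' E b * jR F L E (c τ) * (jR F F' E b)⁻¹) *
          (jR F F' E b * (jR F L E σ) ^ (i : ℕ) * (jR F F' E b)⁻¹)⁻¹ := by group
      _ = _ := by rw [h2]
  · intro v
    obtain ⟨τ, h1, h2⟩ := hv v
    refine ⟨τ, h1, ?_⟩
    apply hj'inj
    rw [ha', h2, map_one]

end Pool.Agent.J6H44.MD
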