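import Pool.Agent.W566.MZ.Stmts

/-!
# From finite 2-groups to `GL_n` of a complete ring with finite quotients
-/

set_option autoImplicit false

noncomputable section

namespace Pool.Agent.J6H44.MD

open MZ

section congruence

variable {B : Type} [CommRing B] (I : Ideal B) (n : ℕ)

/-- reduction modulo `I ^ m` -/
def red (m : ℕ) : GL (Fin n) B →* GL (Fin n) (B ⧸ I ^ m) :=
  Matrix.GeneralLinearGroup.map (n := Fin n) (Ideal.Quotient.mk (I ^ m))

lemma red_eq_iff (m : ℕ) (M N : GL (Fin n) B) :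
    red I n m M = red I n m N ↔ ∀ a b : Fin n,
      (M : Matrix (Fin n) (Fin n) B) a b - (N : Matrix (Fin n) (Fin n) B) a b ∈ I ^ m := by
  constructor
  · intro h a b
    have h1 : ((red I n m M : GL (Fin n) (B ⧸ I ^ m)) : Matrix (Fin n) (Fin n) (B ⧸ I ^ m)) a b =
      ((red I n m N : GL (Fin n) (B ⧸ I ^ m)) : Matrix (Fin n) (Fin n) (B ⧸ I ^ m)) a b := by rw [h]
    exact Ideal.Quotient.eq.mp h1
  · intro h
    ext a b
    exact Ideal.Quotient.eq.mpr (h a b)

/-- congruence subgroups -/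
def Cg (m : ℕ) : Subgroup (GL (Fin n) B) := (red I n m).ker

lemma mem_Cg (m : ℕ) (M : GL (Fin n) B) :
    M ∈ Cg I n m ↔ ∀ a b : Fin n, ((M : Matrix (Fin n) (Fin n) B) - 1) a b ∈ I ^ m := by
  unfold Cg
  rw [MonoidHom.mem_ker, ← map_one (red I n m), red_eq_iff]
  rfl

lemma Cg_anti {m m' : ℕ} (h : m ≤ m') : Cg I n m' ≤ Cg I n m := by
  intro M hM
  rw [mem_Cg] at hM ⊢
  exact fun a b => Ideal.pow_le_pow_right h (hM a b)

lemma eq_of_red [IsHausdorff I B] (M N : GL (Fin n) B) (h : ∀ m, red I n m M = red I n m N) :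
    M = N := by
  ext a b
  rw [← sub_eq_zero]
  apply IsHausdorff.haus (I := I) (M := B) inferInstance
  intro m
  rw [SModEq.zero, smul_eq_mul, Ideal.mul_top]
  exact (red_eq_iff I n m M N).mp (h m) a b

lemma pow_entries (W : Matrix (Fin n) (Fin n) B) (hW : ∀ a b, W a b ∈ I) (j : ℕ) :
    ∀ a b, (W ^ j) a b ∈ I ^ j := by
  induction j with
  | zero => intro a b; simp
  | succ j ih =>
    intro a b
    rw [pow_succ W j, Matrix.mul_apply, pow_succ I j]
    exact Ideal.sum_mem _ fun x _ => Ideal.mul_mem_mul (ih a x) (hW x b)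

lemma one_add_pow (h2 : (2 : B) = 0) (W : Matrix (Fin n) (Fin n) B) (e : ℕ) :
    (1 + W) ^ (2 ^ e) = 1 + W ^ (2 ^ e) := by
  have h2' : (2 : Matrix (Fin n) (Fin n) B) = 0 := by
    ext1 a b
    rw [← one_add_one_eq_two, Matrix.add_apply, ← two_mul, h2, zero_mul]
    rfl
  induction e with
  | zero => simp
  | succ e ih =>
    rw [pow_succ 2 e, pow_mul, ih, pow_mul]
    have h : (1 + W ^ 2 ^ e) ^ 2 = 1 + (W ^ 2 ^ e) ^ 2 + 2 * W ^ 2 ^ e := by noncomm_ring
    rw [h, h2', zero_mul, add_zero]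

/-- the image of the first congruence subgroup modulo `I ^ m` -/
def HH (m : ℕ) : Subgroup (GL (Fin n) (B ⧸ I ^ m)) := (Cg I n 1).map (red I n m)

lemma pgroup (h2 : (2 : B) = 0) (m : ℕ) : IsPGroup 2 (HH I n m) := by
  rintro ⟨h, hh⟩
  obtain ⟨g, hg, rfl⟩ := hh
  refine ⟨m, ?_⟩
  apply Subtype.ext
  show (red I n m g) ^ (2 ^ m) = 1
  rw [← map_pow]
  have hg' := (mem_Cg I n 1 g).mp hg
  rw [← MonoidHom.mem_ker]
  refine (mem_Cg I n m _).mpr ?_
  intro a b
  have h1 : (g : Matrix (Fin n) (Fin n) B) = 1 + ((g : Matrix (Fin n) (Fin n) B) - 1) := by abel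
  rw [Units.val_pow_eq_pow_val, h1, one_add_pow n h2, add_sub_cancel_left]
  have h3 := pow_entries I n ((g : Matrix (Fin n) (Fin n) B) - 1)
    (fun a b => by simpa using hg' a b) (2 ^ m) a b
  exact Ideal.pow_le_pow_right Nat.lt_two_pow_self.le h3

end congruence

/-- two homs to `GL_n(B)`, continuous for the `I`-adic topology and equal on topological
generators, are equal -/
theorem hom_ext_gen {P : Type} [Group P] [TopologicalSpace P] [IsTopologicalGroup P] {ι : Type}
    {B : Type} [CommRing B] (I : Ideal B) [IsHausdorff I B] (n : ℕ)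
    (c : ι → P) (σ : P) (hgen : TopGen c σ) (f g : P →* GL (Fin n) B)
    (hf : ∀ m : ℕ, IsOpen (((Cg I n m).comap f : Subgroup P) : Set P))
    (hg : ∀ m : ℕ, IsOpen (((Cg I n m).comap g : Subgroup P) : Set P))
    (hc : ∀ i, f (c i) = g (c i)) (hσ : f σ = g σ) : f = g := by
  ext1 q
  apply eq_of_red I n
  intro m
  let N : Subgroup P := MonoidHom.eqLocus ((red I n m).comp f) ((red I n m).comp g)
  have hN : IsOpen (N : Set P) := by
    refine Subgroup.isOpen_mono (H₁ := (Cg I n m).comap f ⊓ (Cg I n m).comap g) ?_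
      ((hf m).inter (hg m))
    rintro x ⟨hx1, hx2⟩
    have hx1' : red I n m (f x) = 1 := hx1
    have hx2' : red I n m (g x) = 1 := hx2
    show red I n m (f x) = red I n m (g x)
    rw [hx1', hx2']
  have hT : N = ⊤ := hgen N hN (fun i => by
    show red I n m (f (c i)) = red I n m (g (c i))
    rw [hc i]) (by
    show red I n m (f σ) = red I n m (g σ)
    rw [hσ])
  have hq : q ∈ N := by rw [hT]; exact Subgroup.mem_top q
  exact hq

/-- From finite 2-groups to `GL_n(B)`. -/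
theorem lim {P : Type} [Group P] [TopologicalSpace P] [IsTopologicalGroup P] {ι : Type} (c : ι → P) (σ : P)
    (hTop : TopGen c σ) (hAss : Assign c σ)
    {B : Type} [CommRing B] (I : Ideal B) [IsAdicComplete I B] (h2 : (2 : B) = 0)
    (hfin : ∀ m, Finite (B ⧸ I ^ m)) (n : ℕ)
    (t : ι → GL (Fin n) B) (u : GL (Fin n) B) (ht2 : ∀ i, t i * t i = 1)
    (ht1 : ∀ i, t i ∈ Cg I n 1) (hu : u ∈ Cg I n 1) :
    ∃ ψ : P →* GL (Fin n) B, (∀ g, ψ g ∈ Cg I n 1) ∧
      (∀ m : ℕ, IsOpen (((Cg I n m).comap ψ : Subgroup P) : Set P)) ∧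
      (∀ i, ψ (c i) = t i) ∧ ψ σ = u := by
  -- the maps to the finite levels
  have hex : ∀ m : ℕ, ∃ Ψ : P →* GL (Fin n) (B ⧸ I ^ m), IsOpen (Ψ.ker : Set P) ∧
      (∀ i, Ψ (c i) = red I n m (t i)) ∧ Ψ σ = red I n m u ∧ ∀ g, Ψ g ∈ HH I n m := by
    intro m
    have := hfin m
    have hfGL : Finite (GL (Fin n) (B ⧸ I ^ m)) := inferInstance
    have hfH : Finite (HH I n m) := inferInstance
    have hcard : ∃ e : ℕ, Nat.card (HH I n m) = 2 ^ e := by
      have : Fact (Nat.Prime 2) := ⟨Nat.prime_two⟩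
      exact (IsPGroup.iff_card).mp (pgroup I n h2 m)
    have hmem : ∀ g ∈ Cg I n 1, red I n m g ∈ HH I n m := fun g hg => ⟨g, hg, rfl⟩
    obtain ⟨ψ, hψ1, hψ2, hψ3⟩ := hAss (HH I n m) hcard
      (fun i => ⟨red I n m (t i), hmem _ (ht1 i)⟩) ⟨red I n m u, hmem _ hu⟩ (fun i => by
        apply Subtype.ext
        show red I n m (t i) * red I n m (t i) = 1
        rw [← map_mul, ht2, map_one])
    refine ⟨(HH I n m).subtype.comp ψ, ?_, ?_, ?_, fun g => (ψ g).2⟩
    · have e : ((HH I n m).subtype.comp ψ).ker = ψ.ker := by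
        ext g
        simp [MonoidHom.mem_ker]
      rw [e]
      exact hψ1
    · intro i
      rw [MonoidHom.comp_apply, hψ2 i]
      rfl
    · rw [MonoidHom.comp_apply, hψ3]
      rfl
  choose Ψ hΨo hΨc hΨσ hΨH using hex
  -- compatibility
  let π : ∀ {m m' : ℕ}, m ≤ m' → (B ⧸ I ^ m') →+* (B ⧸ I ^ m) := fun h =>
    Ideal.Quotient.factor (Ideal.pow_le_pow_right h)
  have hπ : ∀ {m m' : ℕ} (h : m ≤ m') (M : GL (Fin n) B),
      Matrix.GeneralLinearGroup.map (π h) (red I n m' M) = red I n m M := by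
    intro m m' h M
    ext a b
    rfl
  have hcomp : ∀ m m' : ℕ, ∀ h : m ≤ m', ∀ g : P,
      Matrix.GeneralLinearGroup.map (π h) (Ψ m' g) = Ψ m g := by
    intro m m' h g
    have h1 : ((Matrix.GeneralLinearGroup.map (n := Fin n) (π h)).comp (Ψ m')).eqLocus (Ψ m) =
        ⊤ := by
      apply hTop
      · refine Subgroup.isOpen_mono (H₁ := (Ψ m').ker ⊓ (Ψ m).ker) ?_ ((hΨo m').inter (hΨo m))
        rintro x ⟨hx1, hx2⟩
        show Matrix.GeneralLinearGroup.map (π h) (Ψ m' x) = Ψ m x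
        rw [MonoidHom.mem_ker.mp hx1, MonoidHom.mem_ker.mp hx2, map_one]
      · intro i
        show Matrix.GeneralLinearGroup.map (π h) (Ψ m' (c i)) = Ψ m (c i)
        rw [hΨc, hΨc, hπ h]
      · show Matrix.GeneralLinearGroup.map (π h) (Ψ m' σ) = Ψ m σ
        rw [hΨσ, hΨσ, hπ h]
    have h2 : g ∈ ((Matrix.GeneralLinearGroup.map (n := Fin n) (π h)).comp (Ψ m')).eqLocus (Ψ m) := by
      rw [h1]
      exact Subgroup.mem_top g
    exact h2
  -- the limit
  have hlim : ∀ (g : P) (a b : Fin n), ∃ x : B, ∀ m : ℕ,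
      Ideal.Quotient.mk (I ^ m) x = (Ψ m g : Matrix (Fin n) (Fin n) (B ⧸ I ^ m)) a b := by
    intro g a b
    have hl : ∀ m, ∃ y : B, Ideal.Quotient.mk (I ^ m) y =
        (Ψ m g : Matrix (Fin n) (Fin n) (B ⧸ I ^ m)) a b := fun m =>
      Ideal.Quotient.mk_surjective _
    choose y hy using hl
    obtain ⟨x, hx⟩ := IsPrecomplete.prec (I := I) (M := B) inferInstance (f := y) (by
      intro m m' h
      rw [SModEq.sub_mem, smul_eq_mul, Ideal.mul_top]
      refine Ideal.Quotient.eq.mp ?_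
      rw [hy m, ← hcomp m m' h g]
      show π h ((Ψ m' g : Matrix (Fin n) (Fin n) (B ⧸ I ^ m')) a b) = _
      rw [← hy m']
      rfl)
    refine ⟨x, fun m => ?_⟩
    rw [← hy m]
    have := hx m
    rw [SModEq.sub_mem, smul_eq_mul, Ideal.mul_top] at this
    exact (Ideal.Quotient.eq.mpr this).symm
  choose X hX using hlim
  let M : P → Matrix (Fin n) (Fin n) B := fun g => Matrix.of fun a b => X g a b
  have hMext : ∀ A C : Matrix (Fin n) (Fin n) B,
      (∀ m, A.map (Ideal.Quotient.mk (I ^ m)) = C.map (Ideal.Quotient.mk (I ^ m))) → A = C := by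
    intro A C h
    ext1 a b
    rw [← sub_eq_zero]
    apply IsHausdorff.haus (I := I) (M := B) inferInstance
    intro m
    rw [SModEq.zero, smul_eq_mul, Ideal.mul_top]
    exact Ideal.Quotient.eq.mp (congrFun (congrFun (h m) a) b)
  have hMmap : ∀ (m : ℕ) (g : P), (M g).map (Ideal.Quotient.mk (I ^ m)) =
      (Ψ m g : Matrix (Fin n) (Fin n) (B ⧸ I ^ m)) := by
    intro m g
    ext1 a b
    exact hX g a b m
  let Mh : P →* Matrix (Fin n) (Fin n) B :=
    { toFun := M
      map_one' := by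
        apply hMext
        intro m
        rw [hMmap, map_one]
        ext1 a b
        by_cases hab : a = b
        · subst hab; simp
        · simp [hab]
      map_mul' := by
        intro x y
        apply hMext
        intro m
        rw [hMmap, map_mul]
        have h1 : ((M x) * (M y)).map (Ideal.Quotient.mk (I ^ m)) =
            (M x).map (Ideal.Quotient.mk (I ^ m)) * (M y).map (Ideal.Quotient.mk (I ^ m)) :=
          Matrix.map_mul
        rw [h1, hMmap, hMmap]
        rfl }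
  have hred : ∀ m g, red I n m (Mh.toHomUnits g) = Ψ m g := by
    intro m g
    ext a b
    exact hX g a b m
  refine ⟨Mh.toHomUnits, ?_, ?_, ?_, ?_⟩
  · intro g
    obtain ⟨γ, hγ, hγ2⟩ := hΨH 1 g
    have h1 : red I n 1 (Mh.toHomUnits g) = red I n 1 γ := by rw [hred, hγ2]
    show red I n 1 (Mh.toHomUnits g) = 1
    rw [h1]
    exact hγ
  · intro m
    have e : (((Cg I n m).comap Mh.toHomUnits : Subgroup P) : Set P) = ((Ψ m).ker : Set P) := by
      ext g
      show red I n m (Mh.toHomUnits g) = 1 ↔ Ψ m g = 1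
      rw [hred]
    rw [e]
    exact hΨo m
  · intro i
    apply eq_of_red I n
    intro m
    rw [hred, hΨc]
  · apply eq_of_red I n
    intro m
    rw [hred, hΨσ]

end Pool.Agent.J6H44.MD
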