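import Mathlib

/-!
# The matrices of the residual representation span the matrix algebra
-/

set_option autoImplicit false

namespace Pool.Agent.J6H44.MD

theorem span_top {k : Type} [Field k] [CharP k 2] {G : Type} [Group G]
    (ρ : G →* Matrix.GeneralLinearGroup (Fin 3) k) (w : k) (hw : w ^ 2 + w + 1 = 0) (gT gS : G)
    (hT : (ρ gT : Matrix (Fin 3) (Fin 3) k) = !![0, 0, w; 1, 0, 0; 0, 1, 0])
    (hS : (ρ gS : Matrix (Fin 3) (Fin 3) k) = !![1, 0, 0; 0, w, 0; 0, 0, w ^ 2]) :
    Submodule.span k (Set.range fun g => (ρ g : Matrix (Fin 3) (Fin 3) k)) = ⊤ := by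
  have h2 : (2 : k) = 0 := by exact_mod_cast CharP.cast_eq_zero k 2
  have hw3 : w ^ 3 = 1 := by linear_combination (w - 1) * hw
  have hw0 : w ≠ 0 := by rintro rfl; simp at hw
  set 𝒮 := Submodule.span k (Set.range fun g => (ρ g : Matrix (Fin 3) (Fin 3) k)) with h𝒮
  have hmem : ∀ g, (ρ g : Matrix (Fin 3) (Fin 3) k) ∈ 𝒮 := fun g =>
    Submodule.subset_span ⟨g, rfl⟩
  have hmul : ∀ x ∈ 𝒮, ∀ y ∈ 𝒮, x * y ∈ 𝒮 := by
    intro x hx y hy
    have h1 : 𝒮 * 𝒮 ≤ 𝒮 := by
      rw [h𝒮, Submodule.span_mul_span, Submodule.span_le]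
      rintro _ ⟨_, ⟨g, rfl⟩, _, ⟨h, rfl⟩, rfl⟩
      refine Submodule.subset_span ⟨g * h, ?_⟩
      show ((ρ (g * h) : Matrix.GeneralLinearGroup (Fin 3) k) : Matrix (Fin 3) (Fin 3) k) = _
      rw [map_mul, Units.val_mul]
    exact h1 (Submodule.mul_mem_mul hx hy)
  have hone : (1 : Matrix (Fin 3) (Fin 3) k) ∈ 𝒮 := by
    have := hmem 1
    rwa [map_one, Units.val_one] at this
  have hSm := hmem gS
  rw [hS] at hSm
  have hTm := hmem gT
  rw [hT] at hTm
  have hSS := hmul _ hSm _ hSm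
  have hTT := hmul _ hTm _ hTm
  have eTT : (!![0, 0, w; 1, 0, 0; 0, 1, 0] * !![0, 0, w; 1, 0, 0; 0, 1, 0] :
      Matrix (Fin 3) (Fin 3) k) = !![0, w, 0; 0, 0, w; 1, 0, 0] := by
    ext i j
    fin_cases i <;> fin_cases j <;> simp [Matrix.mul_apply, Fin.sum_univ_three]
  rw [eTT] at hTT
  have eSS : (!![1, 0, 0; 0, w, 0; 0, 0, w ^ 2] * !![1, 0, 0; 0, w, 0; 0, 0, w ^ 2] :
      Matrix (Fin 3) (Fin 3) k) = !![1, 0, 0; 0, w ^ 2, 0; 0, 0, w] := by
    ext i j
    fin_cases i <;> fin_cases j <;> simp [Matrix.mul_apply, Fin.sum_univ_three]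
    · ring
    · linear_combination w * hw3
  rw [eSS] at hSS
  have hE : ∀ i : Fin 3, Matrix.single i i (1 : k) ∈ 𝒮 := by
    intro i
    fin_cases i
    · have h := 𝒮.add_mem (𝒮.add_mem hone hSm) hSS
      convert h using 1
      ext a b
      fin_cases a <;> fin_cases b <;> simp
      · linear_combination h2
      · linear_combination -hw
      · linear_combination -hw
    · have h := 𝒮.add_mem (𝒮.add_mem hone (𝒮.smul_mem (w ^ 2) hSm)) (𝒮.smul_mem w hSS)
      convert h using 1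
      ext a b
      fin_cases a <;> fin_cases b <;> simp
      · linear_combination -hw
      · linear_combination -h2 - 2 * hw3
      · linear_combination -hw - w * hw3
    · have h := 𝒮.add_mem (𝒮.add_mem hone (𝒮.smul_mem w hSm)) (𝒮.smul_mem (w ^ 2) hSS)
      convert h using 1
      ext a b
      fin_cases a <;> fin_cases b <;> simp
      · linear_combination -hw
      · linear_combination -hw - w * hw3
      · linear_combination -h2 - 2 * hw3
  have hEij : ∀ i j : Fin 3, Matrix.single i j (1 : k) ∈ 𝒮 := by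
    have hstep : ∀ (i j : Fin 3) (Y : Matrix (Fin 3) (Fin 3) k), Y ∈ 𝒮 → Y i j ≠ 0 →
        Matrix.single i j (1 : k) ∈ 𝒮 := by
      intro i j Y hY h0
      have h1 := hmul _ (hmul _ (hE i) _ hY) _ (hE j)
      have h3 : Matrix.single i i (1 : k) * Y * Matrix.single j j (1 : k) =
          (Y i j) • Matrix.single i j (1 : k) := by
        rw [Matrix.single_mul_mul_single]
        simp
      rw [h3] at h1
      have h4 := 𝒮.smul_mem (Y i j)⁻¹ h1
      rwa [smul_smul, inv_mul_cancel₀ h0, one_smul] at h4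
    intro i j
    fin_cases i <;> fin_cases j
    · exact hE 0
    · exact hstep 0 1 _ hTT (by simpa using hw0)
    · exact hstep 0 2 _ hTm (by simpa using hw0)
    · exact hstep 1 0 _ hTm (by simp)
    · exact hE 1
    · exact hstep 1 2 _ hTT (by simpa using hw0)
    · exact hstep 2 0 _ hTT (by simp)
    · exact hstep 2 1 _ hTm (by simp)
    · exact hE 2
  rw [eq_top_iff]
  intro Y _
  rw [Matrix.matrix_eq_sum_single Y]
  refine 𝒮.sum_mem fun i _ => 𝒮.sum_mem fun j _ => ?_
  have := 𝒮.smul_mem (Y i j) (hEij i j)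
  rwa [Matrix.smul_single, smul_eq_mul, mul_one] at this

end Pool.Agent.J6H44.MD
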