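import Pool.Agent.J6H44.MD.Base
import Pool.Agent.J6H44.MD.Level
import Pool.Agent.J6H44.MD.Fam
import Pool.Agent.J6H44.MD.Span
import Pool.Agent.W294.MZ.Strong

/-!
# Assembly
-/

set_option autoImplicit false

noncomputable section

namespace Pool.Agent.J6H44.MD

open NumberField IsDedekindDomain MZ MZ294

lemma mat_40 {k : Type} [Field k] (w : k) : mat w 4 0 = !![1, 0, 0; 0, w, 0; 0, 0, w ^ 2] := by
  ext i j
  rw [mat_S]
  fin_cases i <;> fin_cases j <;> simp

/-- The lower bound, given the structure of the tower. -/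
theorem final_step {F Ω : Type} [Field F] [NumberField F] [Field Ω] [Algebra F Ω]
    [IsAlgClosure F Ω] (D : Dat F Ω)
    (hr1 : ∀ x : F, x ^ 3 - 3 * x + 1 ≠ 0) (hr2 : ∀ x : F, 2 * x ^ 3 - 6 * x - 1 ≠ 0)
    (hr3 : ∀ s x : F, s ^ 2 = 5 → 4 * (x ^ 3 - 3 * x) + (1 + 3 * s) ≠ 0)
    {L E : Type} [Field L] [Field E] [Algebra L E] [Algebra F E] [Algebra E Ω]
    [IsScalarTower F E Ω] [IsGalois F E]
    (hE : ∀ x : E, algebraMap E Ω x ∈ (FSmax (S30' F) : IntermediateField F Ω))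
    (hLN : ∃ x : L, algebraMap E Ω (algebraMap L E x) = D.eN)
    (hLM : ∃ x : L, algebraMap E Ω (algebraMap L E x) = D.eM)
    {P : Type} [Group P] [TopologicalSpace P] [IsTopologicalGroup P]
    (j : P →* Gal(E/F)) (hj : Function.Injective j) (hjo : IsOpenMap j) (hjc : Continuous j)
    (hjn : j.range.Normal)
    (hjL : ∀ g ∈ j.range, ∀ x : L, g (algebraMap L E x) = algebraMap L E x)
    (A : Subgroup Gal(E/F)) (hA : A ⊓ j.range = ⊥)
    (hA' : ∀ g : Gal(E/F), ∃ a ∈ A, ∃ q ∈ j.range, g = q * a)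
    {ι V : Type} (M : ℕ) [Finite V] (c : ι × Fin M → P) (σ : P) (hgen : TopGen c σ)
    (hass : Assign c σ) (a : ι → Gal(E/F)) (π : Gal(E/F) → ι → ι) (v : ι → V)
    (hπa : ∀ b ∈ A, ∀ τ, a (π b τ) = b * a τ)
    (hπv : ∀ b τ, v (π b τ) = v τ)
    (hπc : ∀ b ∈ A, ∀ τ i, b * j (c (τ, i)) * b⁻¹ = j (c (π b τ, i)))
    (hσ : ∀ b ∈ A, b * j σ * b⁻¹ = j σ)
    (hv : ∀ x : V, ∃ τ, v τ = x ∧ a τ = 1) {m : ℕ} (e : V × Fin M ≃ Fin m) :
    ∃ ρbar : GFS Ω (S30' F) →* GL (Fin 3) (GaloisField 2 2),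
      IsOpen (ρbar.ker : Set (GFS Ω (S30' F))) ∧ AbsIrred ρbar ∧
      (∀ g, g * g = 1 → ρbar g = 1) ∧
      ∀ (R : CNL 2 (GaloisField 2 2)) (ρu : GFS Ω (S30' F) →* GL (Fin 3) R.A),
        IsUniversal ρbar R ρu →
        ((4 * m + 1 : ℕ) : WithBot ℕ∞) ≤ ringKrullDim (R.A ⧸ Ideal.span {((2 : ℕ) : R.A)}) := by
  have hGK : IsGalois F (FSmax (S30' F) : IntermediateField F Ω) :=
    Pool.Agent.W178.MZK.K7 F Ω (S30' F)
  -- the inclusion of `E`
  let inc : E →+* (FSmax (S30' F) : IntermediateField F Ω) :=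
    { toFun := fun x => ⟨algebraMap E Ω x, hE x⟩
      map_one' := Subtype.ext (map_one _)
      map_mul' := fun _ _ => Subtype.ext (map_mul _ _ _)
      map_zero' := Subtype.ext (map_zero _)
      map_add' := fun _ _ => Subtype.ext (map_add _ _ _) }
  let _ : Algebra E (FSmax (S30' F) : IntermediateField F Ω) := inc.toAlgebra
  have hincT : IsScalarTower F E (FSmax (S30' F) : IntermediateField F Ω) :=
    IsScalarTower.of_algebraMap_eq (fun x => Subtype.ext (IsScalarTower.algebraMap_apply F E Ω x))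
  let res : Gal((FSmax (S30' F) : IntermediateField F Ω)/F) →* Gal(E/F) :=
    AlgEquiv.restrictNormalHom E
  have hresc : Continuous res := continuous_res
  have hress : Function.Surjective res := AlgEquiv.restrictNormalHom_surjective _
  have hsurj : Function.Surjective (DS' D).Lam := (DS' D).Lam_surj hr1 hr2 hr3
  obtain ⟨w, hw⟩ := exists_omega
  have hw3 : w ^ 3 = 1 := by linear_combination (w - 1) * hw
  have hfixL : ∀ g : Gal((FSmax (S30' F) : IntermediateField F Ω)/F), res g ∈ j.range →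
      ∀ x : L, g (algebraMap E _ (algebraMap L E x)) = algebraMap E _ (algebraMap L E x) := by
    intro g hg x
    rw [← res_apply (F := F) (E := E) g]
    exact congrArg _ (hjL _ hg x)
  have hρs : ∀ g : Gal((FSmax (S30' F) : IntermediateField F Ω)/F), res g ∈ j.range → ∃ a : GaloisField 2 2,
      ((DS' D).rho w hw3 g : Matrix (Fin 3) (Fin 3) (GaloisField 2 2)) =
        a • (1 : Matrix (Fin 3) (Fin 3) (GaloisField 2 2)) := by
    intro g hg
    obtain ⟨x, hx⟩ := hLN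
    obtain ⟨y, hy⟩ := hLM
    refine rho_scalar (DS' D) w hw3 g ?_ ?_
    · have e1 : (DS' D).eN = algebraMap E (FSmax (S30' F) : IntermediateField F Ω) (algebraMap L E x) :=
        Subtype.ext hx.symm
      rw [e1]
      exact hfixL g hg x
    · have e1 : (DS' D).eM = algebraMap E (FSmax (S30' F) : IntermediateField F Ω) (algebraMap L E y) :=
        Subtype.ext hy.symm
      rw [e1]
      exact hfixL g hg y
  have hopen := (DS' D).rho_ker_open w hw3
  have hspan : Submodule.span (GaloisField 2 2) (Set.range fun g =>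
      ((DS' D).rho w hw3 g : Matrix (Fin 3) (Fin 3) (GaloisField 2 2))) = ⊤ := by
    obtain ⟨gT, hT1, hT2⟩ := (DS' D).pa_pt_surj hsurj 1 1 (by simp)
    obtain ⟨gS, hS1, hS2⟩ := (DS' D).pa_pt_surj hsurj 4 0 (by simp)
    refine span_top _ w hw gT gS ?_ ?_
    · rw [Dat.rho_coe, hT1, hT2, mat_T]
    · rw [Dat.rho_coe, hS1, hS2, mat_40]
  refine ⟨(DS' D).rho w hw3, hopen, rho_irred _ hsurj w hw hw3,
    fun g hg => (DS' D).rho_invol w hw3 g hg, ?_⟩
  intro R ρu hR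
  obtain ⟨ρ, h1, h2, h3⟩ := family j hj hjo hjc hjn res hresc hress A hA hA' M c σ hgen hass a π v
    hπa hπv hπc hσ hv ((DS' D).rho w hw3) hopen hρs hspan e
  exact dim_ge 2 _ (4 * m + 1) (fun n i => ord e i < n) (fun n i hi => Nat.lt_succ_of_lt hi) ρ h1 h2
    h3 R ρu hR

/-- no roots of the cubics in extensions of degree a power of 2 -/
lemma noroots {F F' : Type} [Field F] [NumberField F] [Field F'] [Algebra F F']
    [FiniteDimensional F F'] (h2 : Module.finrank ℚ F = 2) (s : F) (hs : s ^ 2 = 5)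
    (N : ℕ) (hN : Module.finrank F F' = 2 ^ N) :
    (∀ x : F', x ^ 3 - 3 * x + 1 ≠ 0) ∧ (∀ x : F', 2 * x ^ 3 - 6 * x - 1 ≠ 0) ∧
    (∀ s' x : F', s' ^ 2 = 5 → 4 * (x ^ 3 - 3 * x) + (1 + 3 * s') ≠ 0) := by
  have hc : CharZero F' := charZero_of_injective_algebraMap (algebraMap F F').injective
  refine ⟨?_, ?_, ?_⟩
  · intro x hx
    refine noroot_ext N hN (-3) 1 (fun y hy => noroot_e h2 s hs y (by linear_combination hy)) x ?_
    rw [map_neg, map_ofNat, map_one]
    linear_combination hx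
  · intro x hx
    refine noroot_ext N hN (-3) (-1 / 2) (fun y hy =>
      noroot_u h2 s hs y (by linear_combination 2 * hy)) x ?_
    rw [map_neg, map_ofNat, map_div₀, map_neg, map_one, map_ofNat]
    linear_combination hx / 2
  · intro s' x hs' hx
    have h5 : (algebraMap F F' s) ^ 2 = 5 := by rw [← map_pow, hs, map_ofNat]
    have h6 : s' = algebraMap F F' s ∨ s' = -algebraMap F F' s :=
      sq_eq_sq_iff_eq_or_eq_neg.mp (by rw [hs', h5])
    rcases h6 with rfl | rfl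
    · refine noroot_ext N hN (-3) ((1 + 3 * s) / 4) (fun y hy =>
        noroot_p h2 s y hs (by linear_combination 4 * hy)) x ?_
      simp only [map_neg, map_ofNat, map_div₀, map_add, map_mul, map_one]
      linear_combination hx / 4
    · refine noroot_ext N hN (-3) ((1 - 3 * s) / 4) (fun y hy =>
        noroot_p h2 (-s) y (by rw [neg_sq, hs]) (by linear_combination 4 * hy)) x ?_
      simp only [map_neg, map_ofNat, map_div₀, map_sub, map_mul, map_one]
      linear_combination hx / 4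

/-- The conclusion, given the level `F'` of the tower. -/
theorem main_aux {E : Type} [Field E] [Algebra F5 E] [Algebra Lf E] [IsScalarTower F5 Lf E]
    [Algebra E Om] [IsScalarTower F5 E Om] [IsScalarTower Lf E Om] [IsGalois F5 E]
    (hELinf : ∀ x : E, algebraMap E Om x ∈ Linf Lf Om)
    (F' : IntermediateField F5 E) [FiniteDimensional F5 F'] (N : ℕ)
    (hdeg : Module.finrank F5 F' = 2 ^ N)
    (hreal : ∀ ψ : F' →+* ℂ, ComplexEmbedding.IsReal ψ)
    {P : Type} [Group P] [TopologicalSpace P] [IsTopologicalGroup P]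
    (j : P →* Gal(E/F')) (A : Subgroup Gal(E/F'))
    (c : (Lf →+* ℂ) × Fin (2 ^ N) → P) (σ : P)
    (a : (Lf →+* ℂ) → Gal(E/F')) (π : Gal(E/F') → (Lf →+* ℂ) → (Lf →+* ℂ))
    (hj : Function.Injective j) (hjo : IsOpenMap j) (hjc : Continuous j)
    (hjn : j.range.Normal)
    (hjL : ∀ g ∈ j.range, ∀ x : Lf, g (algebraMap Lf E x) = algebraMap Lf E x)
    (hA : A ⊓ j.range = ⊥) (hA' : ∀ g : Gal(E/F'), ∃ a ∈ A, ∃ q ∈ j.range, g = q * a)
    (hσ : ∀ b ∈ A, b * j σ * b⁻¹ = j σ) (hTG : TopGen c σ) (hAs : Assign c σ)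
    (hπa : ∀ b ∈ A, ∀ τ, a (π b τ) = b * a τ)
    (hπv : ∀ b τ, (π b τ).comp (algebraMap F5 Lf) = τ.comp (algebraMap F5 Lf))
    (hπc : ∀ b ∈ A, ∀ τ i, b * j (c (τ, i)) * b⁻¹ = j (c (π b τ, i)))
    (hv : ∀ v : F5 →+* ℂ, ∃ τ : Lf →+* ℂ, τ.comp (algebraMap F5 Lf) = v ∧ a τ = 1) :
    ∃ (F Ω : Type) (_ : Field F) (_ : NumberField F) (_ : Field Ω) (_ : Algebra F Ω)
      (_ : IsAlgClosure F Ω) (S : Set (HeightOneSpectrum (𝓞 F)))
      (k : Type) (_ : Field k) (_ : Finite k) (_ : CharP k 2)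
      (ρbar : GFS Ω S →* GL (Fin 3) k)
      (w : InfinitePlace F → InfinitePlace (FSmax S : IntermediateField F Ω)),
      (∀ φ : F →+* ℂ, ComplexEmbedding.IsReal φ) ∧ Module.finrank ℚ F = 2 ^ (N + 1) ∧
      IsDatum F Ω S 2 k 3 ρbar w ∧ delta S ρbar w = 1 ∧
      (∃ (R : CNL 2 k) (ρu : GFS Ω S →* GL (Fin 3) R.A), IsUniversal ρbar R ρu) ∧
      ∀ (R : CNL 2 k) (ρu : GFS Ω S →* GL (Fin 3) R.A), IsUniversal ρbar R ρu →
        ((4 * Module.finrank ℚ F + 1 : ℕ) : WithBot ℕ∞) ≤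
          ringKrullDim (R.A ⧸ Ideal.span {((2 : ℕ) : R.A)}) := by
  have hK1 : StmK1 := Pool.Agent.W343.MZ.stmK1
  have hNF : NumberField F' := NumberField.of_module_finite F5 F'
  have hST : IsScalarTower F5 F' Om := by
    refine IsScalarTower.of_algebraMap_eq (fun x => ?_)
    rw [IsScalarTower.algebraMap_apply F5 E Om]
    rfl
  have hac : IsAlgClosure F' Om := ⟨inferInstance, Algebra.IsAlgebraic.tower_top (K := F5) F'⟩
  have hGE : IsGalois F' E := IsGalois.tower_top_of_isGalois F5 F' E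
  obtain ⟨hr1, hr2, hr3⟩ := noroots (F := F5) (F' := F') finrank_F5 sF sF_sq N hdeg
  let D : Dat F' Om :=
    { s := algebraMap F5 F' sF
      hs := by rw [← map_pow, sF_sq, map_ofNat]
      z := ze
      hz := ze_prim
      y := yy
      hy := by
        rw [← IsScalarTower.algebraMap_apply F5 F' Om]
        exact DOm.hy }
  have hDN : D.eN = ze + ze⁻¹ := by
    change yy ^ 0 * ze ^ 1 + (yy ^ 0 * ze ^ 1)⁻¹ = _; simp
  have hDM : D.eM = yy ^ 3 + (yy ^ 3)⁻¹ := by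
    change yy ^ 3 * ze ^ 0 + (yy ^ 3 * ze ^ 0)⁻¹ = _; simp
  -- the field `L' = F' L`
  let L' : IntermediateField F' Om := IntermediateField.adjoin F' {ze + ze⁻¹, yy ^ 3 + (yy ^ 3)⁻¹}
  have hL'K : L' ≤ D.K0 := by
    rw [IntermediateField.adjoin_le_iff]
    intro x hx
    have hz : ze ∈ D.K0 := IntermediateField.subset_adjoin _ _ (by left; rfl)
    have hy : yy ∈ D.K0 := IntermediateField.subset_adjoin _ _ (by right; rfl)
    simp only [Set.mem_insert_iff, Set.mem_singleton_iff] at hx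
    rcases hx with rfl | rfl
    · exact add_mem hz (inv_mem hz)
    · exact add_mem (pow_mem hy _) (inv_mem (pow_mem hy _))
  have hK0 : FiniteDimensional F' D.K0 := K0_fin D
  have hL'fd : FiniteDimensional F' L' :=
    FiniteDimensional.of_injective (IntermediateField.inclusion hL'K).toLinearMap
      (IntermediateField.inclusion hL'K).injective
  have hL'unr : UnramifiedOutside (S30' F') L' := unram_sub (S30' F') L' D.K0 hL'K (K0_unram D)
  have hK6 : (Linf L' Om).restrictScalars F' ≤ FSmax (S30' F') :=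
    Pool.Agent.W178.MZK.K6 F' Om (S30' F') (two_mem_S30' F') L' hL'unr
  -- `L_∞ ⊆ L'_∞`
  have hLfL' : Lf ≤ L'.restrictScalars F5 := by
    rw [Lf, IntermediateField.adjoin_le_iff]
    intro x hx
    exact IntermediateField.subset_adjoin F' _ hx
  have hLinf : ∀ x : Om, x ∈ Linf Lf Om → x ∈ Linf L' Om := by
    let M0 : IntermediateField Lf Om := (Linf L' Om).toSubfield.toIntermediateField (by
      intro x
      have h1 : (x : Om) ∈ L' := hLfL' x.2
      exact (Linf L' Om).algebraMap_mem ⟨(x : Om), h1⟩)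
    have hM0 : KumClosed M0 := fun x y hx hu hxy => hK1.1 L' Om x y hx hu hxy
    have h2 : Linf Lf Om ≤ M0 := sInf_le hM0
    intro x hx
    exact h2 hx
  have hEK : ∀ x : E, algebraMap E Om x ∈ (FSmax (S30' F') : IntermediateField F' Om) :=
    fun x => hK6 (hLinf _ (hELinf x))
  have hLfN : ∃ x : Lf, algebraMap E Om (algebraMap Lf E x) = D.eN := by
    refine ⟨⟨ze + ze⁻¹, IntermediateField.subset_adjoin _ _ (by simp)⟩, ?_⟩
    rw [← IsScalarTower.algebraMap_apply Lf E Om, hDN]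
    rfl
  have hLfM : ∃ x : Lf, algebraMap E Om (algebraMap Lf E x) = D.eM := by
    refine ⟨⟨yy ^ 3 + (yy ^ 3)⁻¹, IntermediateField.subset_adjoin _ _ (by simp)⟩, ?_⟩
    rw [← IsScalarTower.algebraMap_apply Lf E Om, hDM]
    rfl
  have hVfin : Finite (F5 →+* ℂ) := inferInstance
  have hcardV : Nat.card ((F5 →+* ℂ) × Fin (2 ^ N)) = 2 ^ (N + 1) := by
    rw [Nat.card_prod, Nat.card_fin, Nat.card_eq_fintype_card, NumberField.Embeddings.card,
      finrank_F5, pow_succ']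
  have hfree : Module.Free F5 F' := Module.Free.of_divisionRing F5 F'
  have hfree' : Module.Free ℚ F5 := Module.Free.of_divisionRing ℚ F5
  have hdegQ : Module.finrank ℚ F' = 2 ^ (N + 1) := by
    rw [← Module.finrank_mul_finrank ℚ F5 F', finrank_F5, hdeg, pow_succ']
  let e : (F5 →+* ℂ) × Fin (2 ^ N) ≃ Fin (2 ^ (N + 1)) := Finite.equivFinOfCardEq hcardV
  obtain ⟨ρbar, h1, h2, h3, h4⟩ := final_step D hr1 hr2 hr3 (L := Lf) (E := E) hEK hLfN hLfM j hj hjo hjc
    hjn hjL A hA hA' (2 ^ N) c σ hTG hAs a π (fun τ => τ.comp (algebraMap F5 Lf)) hπa hπv hπc hσ hv e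
  obtain ⟨w, hw⟩ := exists_w' (F := F') (Ω := Om) (FSmax (S30' F') : IntermediateField F' Om)
  refine ⟨F', Om, inferInstance, hNF, inferInstance, inferInstance, hac, S30' F', GaloisField 2 2,
    inferInstance, inferInstance, inferInstance, ρbar, w, hreal, hdegQ, ?_, ?_, ?_, ?_⟩
  · exact ⟨by norm_num, by norm_num, S30'_finite F',
      fun v hv => two_mem_S30' F' v (by exact_mod_cast hv), h1, h2, hw⟩
  · exact delta_one hreal (S30' F') ρbar h3 w
  · exact MZEX.stmEx F' Om (S30' F') (S30'_finite F') (two_mem_S30' F') (GaloisField 2 2) 3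
      (by norm_num) ρbar h1 h2
  · rw [hdegQ]
    exact h4

/-- The data with `F` of degree `2^(N+1)`. -/
theorem main (N : ℕ) :
    ∃ (F Ω : Type) (_ : Field F) (_ : NumberField F) (_ : Field Ω) (_ : Algebra F Ω)
      (_ : IsAlgClosure F Ω) (S : Set (HeightOneSpectrum (𝓞 F)))
      (k : Type) (_ : Field k) (_ : Finite k) (_ : CharP k 2)
      (ρbar : GFS Ω S →* GL (Fin 3) k)
      (w : InfinitePlace F → InfinitePlace (FSmax S : IntermediateField F Ω)),
      (∀ φ : F →+* ℂ, ComplexEmbedding.IsReal φ) ∧ Module.finrank ℚ F = 2 ^ (N + 1) ∧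
      IsDatum F Ω S 2 k 3 ρbar w ∧ delta S ρbar w = 1 ∧
      (∃ (R : CNL 2 k) (ρu : GFS Ω S →* GL (Fin 3) R.A), IsUniversal ρbar R ρu) ∧
      ∀ (R : CNL 2 k) (ρu : GFS Ω S →* GL (Fin 3) R.A), IsUniversal ρbar R ρu →
        ((4 * Module.finrank ℚ F + 1 : ℕ) : WithBot ℕ∞) ≤
          ringKrullDim (R.A ⧸ Ideal.span {((2 : ℕ) : R.A)}) := by
  have hK1 : StmK1 := Pool.Agent.W343.MZ.stmK1
  have hK2 : StmK2 := Pool.Agent.W343.MZ.stmK2
  have hK3 : StmK3 := Pool.Agent.W47.MZK3.k3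
  have hK4 : StmK4 := Pool.Agent.W368.MZK4.t_K4 hK3
  have hK5 : StmK5 := Pool.Agent.W266.MZK5.t_K5
  have hK8 : StmK8 := Pool.Agent.W561.MZK8.stmK8 W289.MZ.stmFrat hK1 hK2 hK3
  obtain ⟨hfd, hgal, h9, hreal, hunr, hNF, htwo⟩ := MZ294.stmL MZ413.stmN MZ413.stmM MZ413.stmP
  have hACL : IsAlgClosure Lf Om := ⟨inferInstance, Algebra.IsAlgebraic.tower_top (K := F5) Lf⟩
  have hG1 : IsGalois F5 (Linf Lf Om) := hK1.2 F5 Lf Om hgal
  have hG2 : IsGalois Lf (Linf Lf Om) := hK1.2 Lf Lf Om inferInstance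
  -- √2
  obtain ⟨r₀, hr₀⟩ : ∃ r : Om, r ^ 2 = 2 := IsAlgClosed.exists_pow_nat_eq 2 (by norm_num)
  have hr₀mem : r₀ ∈ Linf Lf Om := by
    refine hK1.1 Lf Om 2 r₀ ?_ ⟨two_ne_zero, 1, ?_, ?_⟩ hr₀
    · have := (Linf Lf Om).algebraMap_mem (2 : Lf)
      rwa [map_ofNat] at this
    · have : (2 ^ 1 * 2 : Om) = algebraMap ℤ Om 4 := by norm_num
      rw [this]; exact isIntegral_algebraMap
    · have : (2 ^ 1 * 2⁻¹ : Om) = 1 := by norm_num
      rw [this]; exact isIntegral_one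
  have hr2 : (⟨r₀, hr₀mem⟩ : Linf Lf Om) ^ 2 = 2 := Subtype.ext hr₀
  have hrn : (⟨r₀, hr₀mem⟩ : Linf Lf Om) ∉ (algebraMap Lf (Linf Lf Om)).range := by
    rintro ⟨x, hx⟩
    refine no_sqrt2_Lf h9 x ?_
    apply (algebraMap Lf (Linf Lf Om)).injective
    rw [map_pow, hx, hr2, map_ofNat]
  obtain ⟨F', hF'fd, hF'deg, hF'real, P, iP1, iP2, iP3, j, A, c, σ, a, π, hj, hjo, hjc, hjn, hjL, hA,
    hA', hσ, hTG, hAs, haA, hπa, hπv, hπc, hv⟩ := level Pool.Agent.W384.MZTF.stmT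
    Pool.Agent.W462.MZSZ.StmSZ (F := F5) (L := Lf) (E := Linf Lf Om) h9 hreal ⟨r₀, hr₀mem⟩ hr2 hrn
    (hK2 Lf Om)
    (fun φ c h1 h2 N hN hNo => by
      have e1 := hK4 Lf Om N hNo
      rw [hK5 Lf Om hreal φ c h1 h2 N hN hNo] at e1
      exact e1)
    (fun φ c σ h1 h2 h3 => hK8 Lf Om hreal htwo φ c σ h1 h2 h3) N
  have hST5 : IsScalarTower F5 (Linf Lf Om) Om := IsScalarTower.of_algebraMap_eq (fun _ => rfl)
  exact main_aux (E := Linf Lf Om) (fun x => x.2) F' N hF'deg hF'real j A c σ a π hj hjo hjc hjn hjL hA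
    hA' hσ hTG hAs hπa hπv hπc hv

end Pool.Agent.J6H44.MD
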