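import Pool.Agent.J6H44.MD.Lim

/-!
# Free pro-2 products: open subgroups of the cyclic tower

If the pro-2 group `P` is the free pro-2 product of the groups generated by the involutions `c i`
and of the group topologically generated by `σ`, then the kernel of the map `P → ℤ/2^N` with
`c i ↦ 0`, `σ ↦ 1` has the same structure, with the involutions `σ^j (c i) σ^{-j}`, `j < 2^N`, and
`σ^(2^N)`.
-/

set_option autoImplicit false

noncomputable section

namespace Pool.Agent.J6H44.MD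

open MZ

/-- conjugation maps a closure into itself if it maps the generators into the closure -/
lemma conj_closure {G : Type} [Group G] (S : Set G) (g : G)
    (h : ∀ s ∈ S, g * s * g⁻¹ ∈ Subgroup.closure S) :
    ∀ x ∈ Subgroup.closure S, g * x * g⁻¹ ∈ Subgroup.closure S := by
  intro x hx
  have h1 : Subgroup.closure S ≤ (Subgroup.closure S).comap (MulAut.conj g).toMonoidHom := by
    rw [Subgroup.closure_le]
    intro s hs
    exact h s hs
  exact h1 hx

section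

variable {P : Type} [Group P] [TopologicalSpace P] [IsTopologicalGroup P] {ι : Type}
  (c : ι → P) (σ : P) (M : ℕ) [NeZero M]

/-- generation of the kernel -/
theorem topGen_ker [CompactSpace P] [TotallyDisconnectedSpace P] (hT : TopGen c σ)
    (χ : P →* Multiplicative (ZMod M)) (hχo : IsOpen (χ.ker : Set P))
    (hχc : ∀ i, χ (c i) = 1) (hχσ : χ σ = Multiplicative.ofAdd 1)
    (c' : ι × Fin M → χ.ker) (σ' : χ.ker)
    (hc' : ∀ i j, (c' (i, j) : P) = σ ^ (j : ℕ) * c i * (σ ^ (j : ℕ))⁻¹)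
    (hσ' : (σ' : P) = σ ^ M) : TopGen c' σ' := by
  intro N hN hcN hσN
  -- an open normal subgroup
  let N1 : Subgroup P := N.map χ.ker.subtype
  have hN1 : IsOpen (N1 : Set P) := by
    have : IsOpenMap (Subtype.val : χ.ker → P) := hχo.isOpenMap_subtype_val
    exact this _ hN
  obtain ⟨U, hU⟩ := ProfiniteGrp.exist_openNormalSubgroup_sub_open_nhds_of_one hN1 N1.one_mem
  have hUn : (U : Subgroup P).Normal := inferInstance
  have hUo : IsOpen ((U : Subgroup P) : Set P) := U.isOpen'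
  -- the subgroup H1
  let S : Set P := (Set.range fun x => (c' x : P)) ∪ {(σ' : P)} ∪ (U : Set P)
  let H1 : Subgroup P := Subgroup.closure S
  have hcH : ∀ i j, (c' (i, j) : P) ∈ H1 := fun i j =>
    Subgroup.subset_closure (Or.inl (Or.inl ⟨(i, j), rfl⟩))
  have hσH : (σ' : P) ∈ H1 := Subgroup.subset_closure (Or.inl (Or.inr rfl))
  have hUH : (U : Subgroup P) ≤ H1 := fun x hx => Subgroup.subset_closure (Or.inr hx)
  have hH1N : H1 ≤ N1 := by
    rw [Subgroup.closure_le]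
    rintro x ((⟨y, rfl⟩ | hx) | hx)
    · exact ⟨c' y, hcN y, rfl⟩
    · rw [Set.mem_singleton_iff] at hx
      subst hx
      exact ⟨σ', hσN, rfl⟩
    · exact hU hx
  have hH1o : IsOpen (H1 : Set P) := Subgroup.isOpen_mono hUH hUo
  have hM : 0 < M := Nat.pos_of_ne_zero (NeZero.ne M)
  -- conjugation by σ and its inverse
  have hconj1 : ∀ x ∈ H1, σ * x * σ⁻¹ ∈ H1 := by
    apply conj_closure
    rintro x ((⟨⟨i, j⟩, rfl⟩ | hx) | hx)
    · show σ * (c' (i, j) : P) * σ⁻¹ ∈ H1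
      by_cases hj : (j : ℕ) + 1 < M
      · have e : σ * (c' (i, j) : P) * σ⁻¹ = (c' (i, ⟨j + 1, hj⟩) : P) := by
          rw [hc', hc']
          show _ = σ ^ ((j : ℕ) + 1) * c i * (σ ^ ((j : ℕ) + 1))⁻¹
          rw [pow_succ']
          group
        rw [e]
        exact hcH _ _
      · have hj' : (j : ℕ) + 1 = M := by omega
        have e : σ * (c' (i, j) : P) * σ⁻¹ = (σ' : P) * (c' (i, ⟨0, hM⟩) : P) * (σ' : P)⁻¹ := by
          have hσM : σ ^ M = σ * σ ^ (j : ℕ) := by rw [← pow_succ', hj']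
          rw [hc', hc', hσ', hσM]
          simp only [pow_zero]
          group
        rw [e]
        exact H1.mul_mem (H1.mul_mem hσH (hcH _ _)) (H1.inv_mem hσH)
    · rw [Set.mem_singleton_iff] at hx
      subst hx
      have e : σ * (σ' : P) * σ⁻¹ = (σ' : P) := by
        rw [hσ', ← pow_succ', pow_succ, mul_inv_cancel_right]
      rw [e]
      exact hσH
    · exact hUH (hUn.conj_mem _ hx _)
  have hconj2 : ∀ x ∈ H1, σ⁻¹ * x * σ⁻¹⁻¹ ∈ H1 := by
    apply conj_closure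
    rintro x ((⟨⟨i, j⟩, rfl⟩ | hx) | hx)
    · show σ⁻¹ * (c' (i, j) : P) * σ⁻¹⁻¹ ∈ H1
      by_cases hj : (j : ℕ) = 0
      · have hlt : M - 1 < M := by omega
        have e : σ⁻¹ * (c' (i, j) : P) * σ⁻¹⁻¹ =
            (σ' : P)⁻¹ * (c' (i, ⟨M - 1, hlt⟩) : P) * (σ' : P) := by
          rw [hc', hc', hσ', hj]
          obtain ⟨m, rfl⟩ : ∃ m, M = m + 1 := ⟨M - 1, by omega⟩
          show _ = (σ ^ (m + 1))⁻¹ * (σ ^ m * c i * (σ ^ m)⁻¹) * σ ^ (m + 1)
          rw [pow_succ]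
          simp only [pow_zero]
          group
        rw [e]
        exact H1.mul_mem (H1.mul_mem (H1.inv_mem hσH) (hcH _ _)) hσH
      · obtain ⟨m, hm⟩ : ∃ m, (j : ℕ) = m + 1 := ⟨(j : ℕ) - 1, by omega⟩
        have hlt : m < M := by have := j.2; omega
        have e : σ⁻¹ * (c' (i, j) : P) * σ⁻¹⁻¹ = (c' (i, ⟨m, hlt⟩) : P) := by
          rw [hc', hc', hm]
          show _ = σ ^ m * c i * (σ ^ m)⁻¹
          rw [pow_succ']
          group
        rw [e]
        exact hcH _ _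
    · rw [Set.mem_singleton_iff] at hx
      subst hx
      have e : σ⁻¹ * (σ' : P) * σ⁻¹⁻¹ = (σ' : P) := by
        rw [hσ', inv_inv]
        have : σ⁻¹ * σ ^ M = σ ^ M * σ⁻¹ := (Commute.pow_right (Commute.inv_left (Commute.refl σ)) M).eq
        rw [this, inv_mul_cancel_right]
      rw [e]
      exact hσH
    · exact hUH (hUn.conj_mem _ hx _)
  -- `H1` is normal
  have hnorm : Subgroup.normalizer (H1 : Set P) = ⊤ := by
    apply hT
    · exact Subgroup.isOpen_mono Subgroup.le_normalizer hH1o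
    · intro i
      apply Subgroup.le_normalizer
      have := hcH i ⟨0, hM⟩
      rw [hc'] at this
      simpa using this
    · rw [Subgroup.mem_normalizer_iff]
      intro x
      refine ⟨hconj1 x, fun hx => ?_⟩
      have := hconj2 _ hx
      have e : σ⁻¹ * (σ * x * σ⁻¹) * σ⁻¹⁻¹ = x := by group
      rwa [e] at this
  have hH1n : H1.Normal := Subgroup.normalizer_eq_top_iff.mp hnorm
  have htop : H1 ⊔ Subgroup.zpowers σ = ⊤ := by
    apply hT
    · exact Subgroup.isOpen_mono le_sup_left hH1o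
    · intro i
      apply (le_sup_left : H1 ≤ _)
      have := hcH i ⟨0, hM⟩
      rw [hc'] at this
      simpa using this
    · exact (le_sup_right : Subgroup.zpowers σ ≤ H1 ⊔ Subgroup.zpowers σ) (Subgroup.mem_zpowers σ)
  have hH1k : ∀ x ∈ H1, χ x = 1 := by
    intro x hx
    obtain ⟨y, -, rfl⟩ := hH1N hx
    exact y.2
  rw [eq_top_iff]
  rintro ⟨p, hp⟩ -
  have hp1 : p ∈ H1 ⊔ Subgroup.zpowers σ := by rw [htop]; exact Subgroup.mem_top p
  obtain ⟨y, hy, z, ⟨m, rfl⟩, hyz⟩ := Subgroup.mem_sup_of_normal_left.mp hp1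
  have hχp : χ p = 1 := hp
  have h1 : (Multiplicative.ofAdd (1 : ZMod M)) ^ m = 1 := by
    have h2 : χ (y * σ ^ m) = 1 := by
      have : y * σ ^ m = p := hyz
      rw [this, hχp]
    rwa [map_mul, hH1k y hy, one_mul, map_zpow, hχσ] at h2
  have h2 : (M : ℤ) ∣ m := by
    have h3 : ((m : ℤ) : ZMod M) = 0 := by
      have h4 := congrArg Multiplicative.toAdd h1
      rw [toAdd_zpow, toAdd_ofAdd, toAdd_one, zsmul_one] at h4
      exact h4
    exact (ZMod.intCast_zmod_eq_zero_iff_dvd m M).mp h3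
  obtain ⟨l, rfl⟩ := h2
  have h3 : p ∈ H1 := by
    have e : y * σ ^ ((M : ℤ) * l) = p := hyz
    rw [← e, zpow_mul, zpow_natCast, ← hσ']
    exact H1.mul_mem hy (H1.zpow_mem hσH l)
  obtain ⟨y', hy', hyy⟩ := hH1N h3
  have : y' = ⟨p, hp⟩ := Subtype.ext hyy
  rwa [← this]

/-- free assignment on the kernel -/
theorem assign_ker (hA : Assign c σ) (hM : ∃ e : ℕ, M = 2 ^ e)
    (χ : P →* Multiplicative (ZMod M)) (hχc : ∀ i, χ (c i) = 1)
    (hχσ : χ σ = Multiplicative.ofAdd 1) (hT : TopGen c σ) (hχo : IsOpen (χ.ker : Set P))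
    (c' : ι × Fin M → χ.ker) (σ' : χ.ker)
    (hc' : ∀ i j, (c' (i, j) : P) = σ ^ (j : ℕ) * c i * (σ ^ (j : ℕ))⁻¹)
    (hσ' : (σ' : P) = σ ^ M) : Assign c' σ' := by
  classical
  intro H _ _ hH t u ht
  have hMpos : 0 < M := Nat.pos_of_ne_zero (NeZero.ne M)
  let Q := Multiplicative (ZMod M)
  have hQf : Finite Q := inferInstanceAs (Finite (ZMod M))
  let z : Q := Multiplicative.ofAdd 1
  have hzpow : ∀ j : ℕ, z ^ j = Multiplicative.ofAdd (j : ZMod M) := by
    intro j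
    rw [← ofAdd_nsmul, nsmul_one]
  -- powers of z
  have hz1 : ∀ j : ℕ, j + 1 < M → (z ^ j)⁻¹ ≠ z := by
    intro j hj h
    have h1 : z ^ (j + 1) = 1 := by
      rw [pow_succ']
      nth_rewrite 1 [← h]
      rw [inv_mul_cancel]
    rw [hzpow] at h1
    have h2 : ((j + 1 : ℕ) : ZMod M) = 0 := by
      have := congrArg Multiplicative.toAdd h1
      simpa using this
    rw [ZMod.natCast_eq_zero_iff] at h2
    exact absurd (Nat.le_of_dvd (by omega) h2) (by omega)
  have hzM : z ^ M = 1 := by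
    rw [hzpow, ZMod.natCast_self, ofAdd_zero]
  have hz2 : (z ^ (M - 1))⁻¹ = z := by
    rw [inv_eq_iff_mul_eq_one, ← pow_succ, Nat.sub_add_cancel hMpos, hzM]
  -- index of an element
  let idx : Q → Fin M := fun x => ⟨(Multiplicative.toAdd x⁻¹ : ZMod M).val, ZMod.val_lt _⟩
  have hidx : ∀ j : Fin M, idx ((z ^ (j : ℕ))⁻¹) = j := by
    intro j
    apply Fin.ext
    show (Multiplicative.toAdd ((z ^ (j : ℕ))⁻¹)⁻¹ : ZMod M).val = j
    rw [inv_inv, hzpow, toAdd_ofAdd, ZMod.val_natCast, Nat.mod_eq_of_lt j.2]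
  let W := RegularWreathProduct H Q
  let g : Q → H := fun x => if x = z then u else 1
  have hWcard : ∃ e : ℕ, Nat.card W = 2 ^ e := by
    obtain ⟨a, ha⟩ := hH
    obtain ⟨b, hb⟩ := hM
    have hQ : Nat.card Q = 2 ^ b := by
      rw [← hb]
      exact Nat.card_zmod M
    refine ⟨a * 2 ^ b + b, ?_⟩
    rw [RegularWreathProduct.card, ha, hQ, pow_add, pow_mul]
  obtain ⟨Ψ, hΨo, hΨc, hΨσ⟩ := hA W hWcard (fun i => ⟨fun x => t (i, idx x), 1⟩) ⟨g, z⟩ (by
    intro i
    apply RegularWreathProduct.ext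
    · funext x
      show t (i, idx x) * t (i, idx ((1 : Q)⁻¹ * x)) = 1
      rw [inv_one, one_mul, ht]
    · show (1 : Q) * 1 = 1
      rw [one_mul])
  -- the right component is χ
  have hright : ∀ p, (Ψ p).right = χ p := by
    let f : P →* Q := RegularWreathProduct.rightHom.comp Ψ
    have hT' : f.eqLocus χ = ⊤ := by
      apply hT
      · refine Subgroup.isOpen_mono (H₁ := Ψ.ker ⊓ χ.ker) ?_ (hΨo.inter hχo)
        rintro x ⟨hx1, hx2⟩
        have e1 : Ψ x = 1 := hx1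
        have e2 : χ x = 1 := hx2
        show (Ψ x).right = χ x
        rw [e1, e2]
        rfl
      · intro i
        show (Ψ (c i)).right = χ (c i)
        rw [hΨc, hχc]
      · show (Ψ σ).right = χ σ
        rw [hΨσ, hχσ]
    intro p
    have : p ∈ f.eqLocus χ := by rw [hT']; exact Subgroup.mem_top p
    exact this
  let ψ : χ.ker →* H :=
    { toFun := fun p => (Ψ p).left 1
      map_one' := by
        show (Ψ ((1 : χ.ker) : P)).left 1 = 1
        rw [OneMemClass.coe_one, map_one]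
        rfl
      map_mul' := by
        intro x y
        show (Ψ ((x * y : χ.ker) : P)).left 1 = (Ψ x).left 1 * (Ψ y).left 1
        rw [Subgroup.coe_mul, map_mul, RegularWreathProduct.mul_left]
        show (Ψ x).left 1 * (Ψ y).left ((Ψ x).right⁻¹ * 1) = _
        have hx : χ (x : P) = 1 := x.2
        rw [hright, hx, inv_one, one_mul] }
  -- powers of the image of σ
  have hGr : ∀ j : ℕ, ((Ψ σ) ^ j).right = z ^ j := by
    intro j
    have : ((Ψ σ) ^ j).right = RegularWreathProduct.rightHom ((Ψ σ) ^ j) := rfl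
    rw [this, map_pow]
    show (Ψ σ).right ^ j = z ^ j
    rw [hΨσ]
  have hGs : ∀ j : ℕ, ((Ψ σ) ^ (j + 1)).left 1 = ((Ψ σ) ^ j).left 1 * g ((z ^ j)⁻¹) := by
    intro j
    rw [pow_succ, RegularWreathProduct.mul_left]
    show ((Ψ σ) ^ j).left 1 * (Ψ σ).left (((Ψ σ) ^ j).right⁻¹ * 1) = _
    rw [hGr, mul_one, hΨσ]
  have hG1 : ∀ j : ℕ, j + 1 ≤ M → ((Ψ σ) ^ j).left 1 = 1 := by
    intro j
    induction j with
    | zero =>
      intro _
      rw [pow_zero]
      rfl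
    | succ j ih =>
      intro hj
      rw [hGs, ih (by omega), one_mul]
      show (if (z ^ j)⁻¹ = z then u else 1) = 1
      rw [if_neg (hz1 j (by omega))]
  refine ⟨ψ, ?_, ?_, ?_⟩
  · refine Subgroup.isOpen_mono (H₁ := (Ψ.ker).comap χ.ker.subtype) ?_ (hΨo.preimage continuous_subtype_val)
    intro x hx
    have hx' : Ψ (x : P) = 1 := hx
    show (Ψ (x : P)).left 1 = 1
    rw [hx']
    rfl
  · rintro ⟨i, j⟩
    show (Ψ (c' (i, j) : P)).left 1 = t (i, j)
    rw [hc', map_mul, map_mul, map_inv, map_pow]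
    have hj : ((Ψ σ) ^ (j : ℕ)).left 1 = 1 := hG1 j (by have := j.2; omega)
    show ((Ψ σ) ^ (j : ℕ)).left 1 * (Ψ (c i)).left (((Ψ σ) ^ (j : ℕ)).right⁻¹ * 1) *
      (((Ψ σ) ^ (j : ℕ)).left (((Ψ σ) ^ (j : ℕ)).right *
        ((((Ψ σ) ^ (j : ℕ)).right * (Ψ (c i)).right)⁻¹ * 1)))⁻¹ = t (i, j)
    rw [hΨc, hGr, mul_one, mul_one, mul_one, mul_inv_cancel, hj, inv_one, mul_one, one_mul]
    show t (i, idx ((z ^ (j : ℕ))⁻¹)) = t (i, j)
    rw [hidx]
  · show (Ψ (σ' : P)).left 1 = u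
    have e : Ψ σ ^ M = Ψ σ ^ ((M - 1) + 1) := by rw [Nat.sub_add_cancel hMpos]
    rw [hσ', map_pow, e, hGs, hG1 _ (by omega), one_mul, hz2]
    show (if z = z then u else 1) = u
    rw [if_pos rfl]

end

/-- **The tower.** -/
theorem tower {P : Type} [Group P] [TopologicalSpace P] [IsTopologicalGroup P] [CompactSpace P]
    [TotallyDisconnectedSpace P] {ι : Type} (c : ι → P) (σ : P)
    (hT : TopGen c σ) (hA : Assign c σ) (N : ℕ) :
    ∃ χ : P →* Multiplicative (ZMod (2 ^ N)), IsOpen (χ.ker : Set P) ∧ (∀ i, χ (c i) = 1) ∧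
      χ σ = Multiplicative.ofAdd 1 ∧
      ∃ (c' : ι × Fin (2 ^ N) → χ.ker) (σ' : χ.ker),
        (∀ i j, (c' (i, j) : P) = σ ^ (j : ℕ) * c i * (σ ^ (j : ℕ))⁻¹) ∧
        (σ' : P) = σ ^ (2 ^ N) ∧ TopGen c' σ' ∧ Assign c' σ' := by
  have hne : NeZero (2 ^ N) := ⟨by positivity⟩
  have hfin : Finite (Multiplicative (ZMod (2 ^ N))) := inferInstanceAs (Finite (ZMod (2 ^ N)))
  obtain ⟨χ, hχo, hχc, hχσ⟩ := hA (Multiplicative (ZMod (2 ^ N))) ⟨N, Nat.card_zmod (2 ^ N)⟩
    (fun _ => 1) (Multiplicative.ofAdd 1) (fun _ => one_mul 1)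
  let c' : ι × Fin (2 ^ N) → χ.ker := fun x => ⟨σ ^ (x.2 : ℕ) * c x.1 * (σ ^ (x.2 : ℕ))⁻¹, by
    rw [MonoidHom.mem_ker, map_mul, map_mul, map_inv, hχc, mul_one, mul_inv_cancel]⟩
  let σ' : χ.ker := ⟨σ ^ (2 ^ N), by
    rw [MonoidHom.mem_ker, map_pow, hχσ, ← ofAdd_nsmul, nsmul_one, ZMod.natCast_self, ofAdd_zero]⟩
  refine ⟨χ, hχo, hχc, hχσ, c', σ', fun _ _ => rfl, rfl, ?_, ?_⟩
  · exact topGen_ker c σ (2 ^ N) hT χ hχo hχc hχσ c' σ' (fun _ _ => rfl) rfl
  · exact assign_ker c σ (2 ^ N) hA ⟨N, rfl⟩ χ hχc hχσ hT hχo c' σ' (fun _ _ => rfl) rfl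

end Pool.Agent.J6H44.MD
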